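import Pool.Agent.H590Z.HC.Blk

set_option autoImplicit false

open Finset

namespace Pool.Agent.H590Z.HC

namespace H106B1

lemma prod_pairs (f : ℕ → ℂ) (P : ℕ) :
    ∏ j ∈ range (2 * P), f j = ∏ p ∈ range P, (f (2 * p) * f (2 * p + 1)) := by
  induction P with
  | zero => simp
  | succ P ih =>
    rw [show 2 * (P + 1) = 2 * P + 1 + 1 by ring, prod_range_succ, prod_range_succ, ih,
      prod_range_succ, mul_assoc]

lemma split_erase (f : ℕ → ℝ) (K k : ℕ) (hk : k < K) :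
    ∏ j ∈ (range K).erase k, f j =
      (∏ l ∈ range k, f (k - 1 - l)) * ∏ l ∈ range (K - (k + 1)), f (k + 1 + l) := by
  have e : (range K).erase k = range k ∪ Ico (k + 1) K := by
    ext j; simp only [mem_erase, mem_range, mem_union, mem_Ico]; omega
  have hd : Disjoint (range k) (Ico (k + 1) K) := by
    rw [disjoint_left]; intro j h1 h2; simp only [mem_range, mem_Ico] at h1 h2; omega
  rw [e, prod_union hd, prod_Ico_eq_prod_range, prod_range_reflect]

lemma fac_sq (x h : ℝ) (j : ℕ) (hx : x ≠ 0) :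
    ‖((x : ℂ) - Complex.I * ((-1) ^ j * h)) / (x : ℂ)‖ ^ 2 = 1 + h ^ 2 / x ^ 2 := by
  have e : ((x : ℂ) - Complex.I * ((-1) ^ j * h)) =
      (x : ℂ) + ((-((-1) ^ j * h) : ℝ) : ℂ) * Complex.I := by
    push_cast; ring
  rw [norm_div, div_pow, e, Complex.sq_norm, Complex.normSq_add_mul_I, Complex.norm_real,
    Real.norm_eq_abs, sq_abs]
  have : ((-1 : ℝ) ^ j) ^ 2 = 1 := by rw [← pow_mul, mul_comm, pow_mul]; simp
  rw [neg_sq, mul_pow, this]
  field_simp

lemma fac_eq (T s h u : ℝ) (k j : ℕ) :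
    (((nd T s k + u : ℝ) : ℂ) - zr T s h j) / (((nd T s k + u : ℝ) : ℂ) - nd T s j) =
      ((((k : ℝ) - j) * s + u : ℝ) - Complex.I * ((-1) ^ j * h)) / (((((k : ℝ) - j) * s + u : ℝ)) : ℂ) := by
  simp only [zr, nd]
  push_cast
  congr 1 <;> ring

lemma PP_one_le (η : ℝ) (J : ℕ) : 1 ≤ PP η J := by
  unfold PP
  calc (1 : ℝ) = ∏ _l ∈ range J, (1 : ℝ) := by simp
    _ ≤ _ := prod_le_prod (fun _ _ => zero_le_one)
      (fun i _ => le_add_of_nonneg_right (by positivity))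

lemma PP_mono (η : ℝ) {J K : ℕ} (h : J ≤ K) : PP η J ≤ PP η K := by
  induction K, h using Nat.le_induction with
  | base => exact le_rfl
  | succ n _ ih =>
    have h1 := PP_one_le η n
    unfold PP at *
    rw [prod_range_succ]
    have h2 : (1 : ℝ) ≤ 1 + η ^ 2 / ((n : ℝ) + 1) ^ 2 := le_add_of_nonneg_right (by positivity)
    nlinarith

lemma PP_tail (η : ℝ) {J K : ℕ} (hJ : 0 < J) (h : J ≤ K) :
    PP η K ≤ PP η J * Real.exp (η ^ 2 * (1 / J - 1 / K)) := by
  induction K, h using Nat.le_induction with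
  | base => simp
  | succ n hn ih =>
    have h1 := PP_one_le η J
    have hn0 : (0 : ℝ) < n := by exact_mod_cast lt_of_lt_of_le hJ hn
    have e : PP η (n + 1) = PP η n * (1 + η ^ 2 / ((n : ℝ) + 1) ^ 2) := by
      unfold PP; rw [prod_range_succ]
    have h2 : 1 + η ^ 2 / ((n : ℝ) + 1) ^ 2 ≤ Real.exp (η ^ 2 * (1 / n - 1 / ((n : ℝ) + 1))) := by
      refine le_trans ?_ (Real.add_one_le_exp _)
      have : 1 / ((n : ℝ) + 1) ^ 2 ≤ 1 / n - 1 / ((n : ℝ) + 1) := by
        rw [div_sub_div _ _ hn0.ne' (by positivity), div_le_div_iff₀ (by positivity) (by positivity)]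
        nlinarith
      have h3 := mul_le_mul_of_nonneg_left this (sq_nonneg η)
      rw [mul_one_div] at h3
      linarith
    rw [e]
    calc PP η n * (1 + η ^ 2 / ((n : ℝ) + 1) ^ 2)
        ≤ (PP η J * Real.exp (η ^ 2 * (1 / J - 1 / n))) *
          Real.exp (η ^ 2 * (1 / n - 1 / ((n : ℝ) + 1))) :=
          mul_le_mul ih h2 (by positivity) (by positivity)
      _ = PP η J * Real.exp (η ^ 2 * (1 / J - 1 / ((n + 1 : ℕ) : ℝ))) := by
          rw [mul_assoc, ← Real.exp_add]; push_cast; congr 2; ring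

lemma prod_range_mono (f : ℕ → ℝ) {J K : ℕ} (h : J ≤ K) (hf : ∀ l < K, 1 ≤ f l) :
    ∏ l ∈ range J, f l ≤ ∏ l ∈ range K, f l := by
  induction K, h using Nat.le_induction with
  | base => exact le_rfl
  | succ n _ ih =>
    have h0 := ih (fun l hl => hf l (by omega))
    have h1 : 0 ≤ ∏ l ∈ range n, f l :=
      prod_nonneg (fun l hl => le_trans zero_le_one (hf l (by have := mem_range.1 hl; omega)))
    rw [prod_range_succ]
    have h2 := hf n (by omega)
    nlinarith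

lemma pair_ge (a b h d u : ℝ) (ha : 0 ≤ a) (hb : 0 ≤ b) (hu : |u| < d)
    (ea : a ^ 2 = 1 + h ^ 2 / (d + u) ^ 2) (eb : b ^ 2 = 1 + h ^ 2 / (-d + u) ^ 2) :
    1 + h ^ 2 / d ^ 2 ≤ a * b := by
  have h1 : 0 < d + u := by have := neg_abs_le u; linarith
  have h2 : 0 < d - u := by have := le_abs_self u; linarith
  have hd : 0 < d := by linarith
  set p := h / (d + u) with hp
  set q := h / (d - u) with hq
  have ea' : a ^ 2 = 1 + p ^ 2 := by rw [ea, hp, div_pow]
  have eb' : b ^ 2 = 1 + q ^ 2 := by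
    rw [eb, hq, div_pow, show (-d + u) ^ 2 = (d - u) ^ 2 by ring]
  have hpq : h ^ 2 / d ^ 2 ≤ p * q := by
    rw [hp, hq, div_mul_div_comm, ← sq]
    apply div_le_div_of_nonneg_left (sq_nonneg h) (by positivity)
    nlinarith [sq_nonneg u]
  have h3 : (1 + p * q) ^ 2 ≤ (a * b) ^ 2 := by
    rw [mul_pow, ea', eb']; nlinarith [sq_nonneg (p - q)]
  have h4 : 1 + p * q ≤ a * b := le_of_sq_le_sq_abs h3 (mul_nonneg ha hb)
  linarith
where
  le_of_sq_le_sq_abs {x y : ℝ} (h : x ^ 2 ≤ y ^ 2) (hy : 0 ≤ y) : x ≤ y :=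
    le_trans (le_abs_self x) (by rw [← abs_of_nonneg hy]; exact sq_le_sq.1 h)

end H106B1

open H106B1

theorem blk_off (T s h d : ℝ) (P : ℕ) (z : ℂ) (hs : 0 < s) (hh : s ≤ h) (hd : 0 < d)
    (hz : ∀ j < 2 * P, d ≤ ‖z - nd T s j‖) (hsm : 2 * P * h ^ 2 / d ^ 2 ≤ 1) :
    ‖∏ j ∈ range (2 * P), (z - zr T s h j) / (z - nd T s j) - 1‖ ≤ 4 * P * h ^ 2 / d ^ 2 := by
  rw [prod_pairs]
  have hh0 : 0 < h := lt_of_lt_of_le hs hh
  set g : ℕ → ℂ := fun p => ((h : ℂ) ^ 2 + Complex.I * h * s) /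
    ((z - nd T s (2 * p)) * (z - nd T s (2 * p + 1))) with hg
  have hne : ∀ j < 2 * P, z - (nd T s j : ℂ) ≠ 0 := by
    intro j hj e
    have := hz j hj
    rw [e, norm_zero] at this
    linarith
  have e1 : ∏ p ∈ range P, ((z - zr T s h (2 * p)) / (z - nd T s (2 * p)) *
      ((z - zr T s h (2 * p + 1)) / (z - nd T s (2 * p + 1)))) = ∏ p ∈ range P, (1 + g p) := by
    refine prod_congr rfl (fun p hp => ?_)
    have hp' := mem_range.1 hp
    have a1 := hne (2 * p) (by omega)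
    have a2 := hne (2 * p + 1) (by omega)
    simp only [hg]
    field_simp
    simp only [zr, nd, pow_succ, pow_mul]
    push_cast
    ring_nf
    rw [Complex.I_sq]
    ring
  rw [e1]
  have hb : ∀ p ∈ range P, ‖g p‖ ≤ 2 * h ^ 2 / d ^ 2 := by
    intro p hp
    have hp' := mem_range.1 hp
    have a1 := hz (2 * p) (by omega)
    have a2 := hz (2 * p + 1) (by omega)
    simp only [hg]
    rw [norm_div, norm_mul]
    have n1 : ‖(h : ℂ) ^ 2 + Complex.I * h * s‖ ≤ 2 * h ^ 2 := by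
      refine le_trans (norm_add_le _ _) ?_
      rw [norm_pow, norm_mul, norm_mul, Complex.norm_I, Complex.norm_real, Complex.norm_real,
        Real.norm_eq_abs, Real.norm_eq_abs, abs_of_pos hh0, abs_of_pos hs]
      nlinarith
    refine div_le_div₀ (by positivity) n1 (by positivity) ?_
    rw [sq]
    exact mul_le_mul a1 a2 hd.le (norm_nonneg _)
  have hsum : ∑ p ∈ range P, ‖g p‖ ≤ 2 * P * h ^ 2 / d ^ 2 := by
    refine le_trans (sum_le_sum hb) ?_
    rw [sum_const, card_range, nsmul_eq_mul]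
    apply le_of_eq; ring
  have h0 : 0 ≤ 2 * P * h ^ 2 / d ^ 2 := by positivity
  refine le_trans (Finset.norm_prod_one_add_sub_one_le _ _) ?_
  have h5 := Real.abs_exp_sub_one_le (x := 2 * P * h ^ 2 / d ^ 2) (by rw [abs_of_nonneg h0]; exact hsm)
  rw [abs_of_nonneg h0] at h5
  have h6 := Real.exp_le_exp.2 hsum
  have h7 := le_abs_self (Real.exp (2 * P * h ^ 2 / d ^ 2) - 1)
  calc Real.exp (∑ p ∈ range P, ‖g p‖) - 1 ≤ 2 * (2 * P * h ^ 2 / d ^ 2) := by linarith
    _ = 4 * P * h ^ 2 / d ^ 2 := by ring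

theorem blk_res (T s h : ℝ) (K k : ℕ) (hs : 0 < s) (hk : k < K) :
    ∏ j ∈ (range K).erase k, ‖((nd T s k : ℂ) - zr T s h j) / ((nd T s k : ℂ) - nd T s j)‖ ≤
      PP (h / s) K := by
  set F : ℕ → ℝ := fun j => ‖((nd T s k : ℂ) - zr T s h j) / ((nd T s k : ℂ) - nd T s j)‖ with hF
  have hsq : ∀ j, j ≠ k → F j ^ 2 = 1 + (h / s) ^ 2 / ((k : ℝ) - j) ^ 2 := by
    intro j hj
    have e := fac_eq T s h 0 k j
    rw [add_zero] at e
    have hkj : (k : ℝ) - j ≠ 0 := sub_ne_zero.2 (by exact_mod_cast hj.symm)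
    simp only [hF]
    rw [e, fac_sq _ _ _ (by rw [add_zero]; exact mul_ne_zero hkj hs.ne'), add_zero]
    field_simp
  have h1 : (∏ j ∈ (range K).erase k, F j) ^ 2 = PP (h / s) k * PP (h / s) (K - (k + 1)) := by
    rw [← prod_pow, split_erase _ _ _ hk]
    unfold PP
    congr 1
    · refine prod_congr rfl (fun l hl => ?_)
      have hl' := mem_range.1 hl
      rw [hsq _ (by omega)]
      have : ((k - 1 - l : ℕ) : ℝ) = k - 1 - l := by
        rw [Nat.cast_sub (by omega), Nat.cast_sub (by omega)]; simp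
      rw [this]; congr 2; ring
    · refine prod_congr rfl (fun l _ => ?_)
      rw [hsq _ (by omega)]
      push_cast; congr 2; ring
  have h2 : PP (h / s) k ≤ PP (h / s) K := PP_mono _ hk.le
  have h3 : PP (h / s) (K - (k + 1)) ≤ PP (h / s) K := PP_mono _ (by omega)
  have h4 := PP_one_le (h / s) k
  have h5 := PP_one_le (h / s) (K - (k + 1))
  refine pair_ge.le_of_sq_le_sq_abs ?_ (by linarith)
  rw [h1, sq]
  exact mul_le_mul h2 h3 (by linarith) (by linarith)

theorem blk_int (T s h u : ℝ) (K k J : ℕ) (hs : 0 < s) (hh : s ≤ h) (hu : |u| < s) (hJ : (h / s) ^ 2 ≤ J)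
    (hk1 : J ≤ k) (hk2 : k + J < K) :
    PP (h / s) K ≤ 3 * ∏ j ∈ (range K).erase k,
      ‖(((nd T s k + u : ℝ) : ℂ) - zr T s h j) / (((nd T s k + u : ℝ) : ℂ) - nd T s j)‖ := by
  set F : ℕ → ℝ := fun j =>
    ‖(((nd T s k + u : ℝ) : ℂ) - zr T s h j) / (((nd T s k + u : ℝ) : ℂ) - nd T s j)‖ with hF
  have hu1 := neg_abs_le u
  have hu2 := le_abs_self u
  have hne : ∀ j, j ≠ k → ((k : ℝ) - j) * s + u ≠ 0 := by
    intro j hj
    rcases lt_or_gt_of_ne hj with h1 | h1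
    · have : (j : ℝ) + 1 ≤ k := by exact_mod_cast h1
      have : s ≤ ((k : ℝ) - j) * s := by nlinarith
      linarith
    · have : (k : ℝ) + 1 ≤ j := by exact_mod_cast h1
      have : ((k : ℝ) - j) * s ≤ -s := by nlinarith
      linarith
  have hsq : ∀ j, j ≠ k → F j ^ 2 = 1 + h ^ 2 / (((k : ℝ) - j) * s + u) ^ 2 := by
    intro j hj
    simp only [hF]
    rw [fac_eq T s h u k j, fac_sq _ _ _ (hne j hj)]
  have hF0 : ∀ j, 0 ≤ F j := fun j => norm_nonneg _
  have hF1 : ∀ j, j ≠ k → 1 ≤ F j := by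
    intro j hj
    refine pair_ge.le_of_sq_le_sq_abs ?_ (hF0 j)
    rw [hsq j hj, one_pow]
    exact le_add_of_nonneg_right (by positivity)
  have hη : 1 ≤ h / s := by rw [le_div_iff₀ hs]; linarith
  have hJ1 : (1 : ℝ) ≤ J := by nlinarith
  have hJ0 : 0 < J := by
    have : (0 : ℝ) < J := by linarith
    exact_mod_cast this
  have hA : ∏ l ∈ range J, F (k - 1 - l) ≤ ∏ l ∈ range k, F (k - 1 - l) :=
    prod_range_mono _ hk1 (fun l hl => hF1 _ (by omega))
  have hB : ∏ l ∈ range J, F (k + 1 + l) ≤ ∏ l ∈ range (K - (k + 1)), F (k + 1 + l) :=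
    prod_range_mono _ (by omega) (fun l _ => hF1 _ (by omega))
  have hC : PP (h / s) J ≤ (∏ l ∈ range J, F (k - 1 - l)) * ∏ l ∈ range J, F (k + 1 + l) := by
    rw [← prod_mul_distrib]
    unfold PP
    refine prod_le_prod (fun l _ => by positivity) (fun l hl => ?_)
    have hl' := mem_range.1 hl
    have c1 : ((k - 1 - l : ℕ) : ℝ) = k - 1 - l := by
      rw [Nat.cast_sub (by omega), Nat.cast_sub (by omega)]; simp
    have hl0 : (0 : ℝ) ≤ l := Nat.cast_nonneg l
    have := pair_ge (F (k - 1 - l)) (F (k + 1 + l)) h (((l : ℝ) + 1) * s) u (hF0 _) (hF0 _)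
      (by nlinarith)
      (by rw [hsq _ (by omega), c1]; congr 3; ring)
      (by rw [hsq _ (by omega)]; push_cast; congr 3; ring)
    refine le_trans (le_of_eq ?_) this
    field_simp
  have hD := PP_tail (h / s) hJ0 (show J ≤ K by omega)
  have hE : Real.exp ((h / s) ^ 2 * (1 / J - 1 / K)) ≤ 3 := by
    have hK : (0 : ℝ) ≤ 1 / K := by positivity
    have h1 : (h / s) ^ 2 * (1 / J - 1 / K) ≤ 1 := by
      have h2 : (h / s) ^ 2 * (1 / J) ≤ 1 := by
        rw [mul_one_div, div_le_one (by linarith)]; exact hJ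
      nlinarith [sq_nonneg (h / s)]
    exact le_trans (Real.exp_le_exp.2 h1) (le_trans Real.exp_one_lt_d9.le (by norm_num))
  rw [split_erase _ _ _ (show k < K by omega)]
  have hP := PP_one_le (h / s) J
  have hA0 : 0 ≤ ∏ l ∈ range J, F (k - 1 - l) := prod_nonneg (fun l _ => hF0 _)
  have hB0 : 0 ≤ ∏ l ∈ range J, F (k + 1 + l) := prod_nonneg (fun l _ => hF0 _)
  have hG := mul_le_mul hA hB hB0 (le_trans hA0 hA)
  calc PP (h / s) K ≤ PP (h / s) J * Real.exp ((h / s) ^ 2 * (1 / J - 1 / K)) := hD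
    _ ≤ PP (h / s) J * 3 := mul_le_mul_of_nonneg_left hE (by linarith)
    _ ≤ _ := by linarith

end Pool.Agent.H590Z.HC
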