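import Mathlib

set_option autoImplicit false

/-! The four-dimensional Hopf algebra `K[x]/(x^4)` with `x` primitive, in characteristic two. -/

namespace Pool.Agent.H106Z.Bic

open Polynomial TensorProduct

noncomputable section

variable (K : Type) [Field K]

/-- `K[x]/(x^4)` -/
def A : Type := AdjoinRoot (X ^ 4 : K[X])

instance : CommRing (A K) := inferInstanceAs (CommRing (AdjoinRoot (X ^ 4 : K[X])))
instance instAlgA : Algebra K (A K) := inferInstanceAs (Algebra K (AdjoinRoot (X ^ 4 : K[X])))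

/-- the generator -/
def x : A K := AdjoinRoot.root (X ^ 4 : K[X])

theorem x_pow4 : x K ^ 4 = 0 := by
  have := AdjoinRoot.eval₂_root (X ^ 4 : K[X])
  rw [eval₂_X_pow] at this
  exact this

variable {K}

/-- universal property -/
def lift {T : Type} [CommRing T] [Algebra K T] (y : T) (hy : y ^ 4 = 0) : A K →ₐ[K] T :=
  AdjoinRoot.liftAlgHom (X ^ 4 : K[X]) (Algebra.ofId K T) y (by rw [eval₂_X_pow]; exact hy)

@[simp] theorem lift_x {T : Type} [CommRing T] [Algebra K T] (y : T) (hy : y ^ 4 = 0) :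
    lift y hy (x K) = y := AdjoinRoot.liftAlgHom_root _ _ _ _

theorem hom_ext {T : Type} [Semiring T] [Algebra K T] {f g : A K →ₐ[K] T}
    (h : f (x K) = g (x K)) : f = g := AdjoinRoot.algHom_ext h

variable (K)

/-- the basis of powers -/
def bas : Module.Basis (Fin 4) K (A K) :=
  (AdjoinRoot.powerBasis' (monic_X_pow 4 : (X ^ 4 : K[X]).Monic)).basis.reindex
    (finCongr (by simp))

theorem bas_apply (i : Fin 4) : bas K i = x K ^ (i : ℕ) := by
  have := Module.Basis.reindex_apply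
    (AdjoinRoot.powerBasis' (monic_X_pow 4 : (X ^ 4 : K[X]).Monic)).basis
    (finCongr (by simp) : _ ≃ Fin 4) i
  rw [PowerBasis.basis_eq_pow] at this
  exact this

instance : FiniteDimensional K (A K) := Module.Finite.of_basis (bas K)

/-- coordinates -/
def c (i : Fin 4) : A K →ₗ[K] K := (bas K).coord i

variable {K}

theorem c_pow (i j : Fin 4) : c K i (x K ^ (j : ℕ)) = if j = i then 1 else 0 := by
  rw [← bas_apply]
  simp [c, Finsupp.single_apply]

theorem c_one (i : Fin 4) : c K i 1 = if 0 = i then 1 else 0 := by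
  simpa using c_pow (K := K) i 0

theorem c_x (i : Fin 4) : c K i (x K) = if 1 = i then 1 else 0 := by
  simpa using c_pow (K := K) i 1

theorem c_x2 (i : Fin 4) : c K i (x K ^ 2) = if 2 = i then 1 else 0 := by
  simpa using c_pow (K := K) i 2

theorem c_x3 (i : Fin 4) : c K i (x K ^ 3) = if 3 = i then 1 else 0 := by
  simpa using c_pow (K := K) i 3

theorem expand (a : A K) :
    a = c K 0 a • (1 : A K) + c K 1 a • x K + c K 2 a • x K ^ 2 + c K 3 a • x K ^ 3 := by
  have := (bas K).sum_repr a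
  rw [Fin.sum_univ_four] at this
  simp only [bas_apply] at this
  conv_lhs => rw [← this]
  simp [c]

theorem lin_ext {T : Type} [AddCommGroup T] [Module K T] {f g : A K →ₗ[K] T} (h0 : f 1 = g 1)
    (h1 : f (x K) = g (x K)) (h2 : f (x K ^ 2) = g (x K ^ 2)) (h3 : f (x K ^ 3) = g (x K ^ 3)) :
    f = g := by
  ext a
  rw [expand a]
  simp only [map_add, map_smul, h0, h1, h2, h3]

theorem A_ind {P : A K → Prop} (h0 : ∀ r : K, P (algebraMap K (A K) r)) (h1 : P (x K))
    (hadd : ∀ a b, P a → P b → P (a + b)) (hmul : ∀ a b, P a → P b → P (a * b)) (a : A K) :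
    P a := by
  rw [expand a]
  simp only [Algebra.smul_def, pow_succ, pow_zero, one_mul, mul_one]
  exact hadd _ _ (hadd _ _ (hadd _ _ (h0 _) (hmul _ _ (h0 _) h1)) (hmul _ _ (h0 _) (hmul _ _ h1 h1)))
    (hmul _ _ (h0 _) (hmul _ _ (hmul _ _ h1 h1) h1))

variable [CharP K 2]

theorem two_eq {T : Type} [Ring T] [Algebra K T] : (2 : T) = 0 := by
  have h : (2 : K) = 0 := CharP.cast_eq_zero K 2
  have := congrArg (algebraMap K T) h
  rw [map_zero, map_ofNat] at this
  exact this

variable (K)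

theorem comul_aux : (x K ⊗ₜ[K] (1 : A K) + (1 : A K) ⊗ₜ[K] x K) ^ 4 = 0 := by
  have h2 : (2 : A K ⊗[K] A K) = 0 := two_eq (K := K)
  have hu : (x K ⊗ₜ[K] (1 : A K)) ^ 4 = 0 := by
    rw [Algebra.TensorProduct.tmul_pow, x_pow4, zero_tmul]
  have hv : ((1 : A K) ⊗ₜ[K] x K) ^ 4 = 0 := by
    rw [Algebra.TensorProduct.tmul_pow, x_pow4, tmul_zero]
  set u := x K ⊗ₜ[K] (1 : A K)
  set v := (1 : A K) ⊗ₜ[K] x K
  linear_combination hu + hv + (2 * u ^ 3 * v + 3 * u ^ 2 * v ^ 2 + 2 * u * v ^ 3) * h2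

/-- comultiplication -/
def dA : A K →ₐ[K] A K ⊗[K] A K := lift _ (comul_aux K)

omit [CharP K 2] in
/-- counit -/
def eA : A K →ₐ[K] K := lift 0 (by simp)

@[simp] theorem dA_x : dA K (x K) = x K ⊗ₜ[K] (1 : A K) + (1 : A K) ⊗ₜ[K] x K := lift_x _ _

omit [CharP K 2] in
@[simp] theorem eA_x : eA K (x K) = 0 := lift_x _ _

instance instBialgA : Bialgebra K (A K) :=
  Bialgebra.ofAlgHom (dA K) (eA K)
    (hom_ext (by
      simp [Algebra.TensorProduct.one_def, add_tmul, tmul_add, add_assoc]))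
    (hom_ext (by simp))
    (hom_ext (by simp))

theorem comulAlgHom_A : Bialgebra.comulAlgHom K (A K) = dA K := rfl
theorem counitAlgHom_A : Bialgebra.counitAlgHom K (A K) = eA K := rfl

theorem x_add_x : x K + x K = 0 := by
  have h2 : (2 : A K) = 0 := two_eq (K := K)
  linear_combination (x K) * h2

instance instHopfA : HopfAlgebra K (A K) :=
  HopfAlgebra.ofAlgHom (AlgHom.id K (A K))
    (hom_ext (by simp [comulAlgHom_A, counitAlgHom_A, x_add_x]))
    (hom_ext (by simp [comulAlgHom_A, counitAlgHom_A, x_add_x]))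

theorem mul_dA (a : A K) :
    Algebra.TensorProduct.lmul' K (dA K a) = algebraMap K (A K) (eA K a) := by
  have : (Algebra.TensorProduct.lmul' K).comp (dA K) = (Algebra.ofId K (A K)).comp (eA K) :=
    hom_ext (by simp [x_add_x])
  exact congr($this a)

theorem dA_x2 : dA K (x K ^ 2) = (x K ^ 2) ⊗ₜ[K] (1 : A K) + (1 : A K) ⊗ₜ[K] (x K ^ 2) := by
  have h2 : (2 : A K ⊗[K] A K) = 0 := two_eq (K := K)
  have hu : (x K ^ 2) ⊗ₜ[K] (1 : A K) = (x K ⊗ₜ[K] (1 : A K)) ^ 2 := by
    rw [Algebra.TensorProduct.tmul_pow, one_pow]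
  have hv : (1 : A K) ⊗ₜ[K] (x K ^ 2) = ((1 : A K) ⊗ₜ[K] x K) ^ 2 := by
    rw [Algebra.TensorProduct.tmul_pow, one_pow]
  rw [map_pow, dA_x, hu, hv]
  set u := x K ⊗ₜ[K] (1 : A K)
  set v := (1 : A K) ⊗ₜ[K] x K
  linear_combination (u * v) * h2

theorem dA_x3 : dA K (x K ^ 3) = (x K ^ 3) ⊗ₜ[K] (1 : A K) + (x K ^ 2) ⊗ₜ[K] x K +
    x K ⊗ₜ[K] (x K ^ 2) + (1 : A K) ⊗ₜ[K] (x K ^ 3) := by
  rw [pow_succ, map_mul, dA_x2, dA_x]
  simp only [add_mul, mul_add, Algebra.TensorProduct.tmul_mul_tmul, one_mul, mul_one, ← pow_succ]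
  abel

variable {K}

omit [CharP K 2] in
theorem sig_aux (t : K) : (x K + t • x K ^ 2) ^ 4 = 0 := by
  rw [Algebra.smul_def]
  have := x_pow4 K
  linear_combination (1 + algebraMap K (A K) t * x K) ^ 4 * this

omit [CharP K 2] in
/-- the automorphism `x ↦ x + t x²` -/
def sig (t : K) : A K →ₐ[K] A K := lift _ (sig_aux t)

omit [CharP K 2] in
@[simp] theorem sig_x (t : K) : sig t (x K) = x K + t • x K ^ 2 := lift_x _ _

theorem sig_x2 (t : K) : sig t (x K ^ 2) = x K ^ 2 := by
  have h2 : (2 : A K) = 0 := two_eq (K := K)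
  rw [map_pow, sig_x, Algebra.smul_def]
  have := x_pow4 K
  linear_combination (algebraMap K (A K) t) ^ 2 * this + (algebraMap K (A K) t * x K ^ 3) * h2

omit [CharP K 2] in
theorem sig_zero : sig (0 : K) = AlgHom.id K (A K) := hom_ext (by simp)

theorem sig_add (s t : K) : sig (s + t) = (sig s).comp (sig t) := by
  apply hom_ext
  rw [AlgHom.comp_apply, sig_x t, map_add, map_smul, sig_x2, sig_x, sig_x, add_smul, add_assoc]

/-- pairing of two functionals -/
def pr {M : Type} [AddCommGroup M] [Module K M] (f g : M →ₗ[K] K) : M ⊗[K] M →ₗ[K] K :=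
  (LinearMap.mul' K K) ∘ₗ TensorProduct.map f g

omit [CharP K 2] in
@[simp] theorem pr_tmul {M : Type} [AddCommGroup M] [Module K M] (f g : M →ₗ[K] K) (a b : M) :
    pr f g (a ⊗ₜ b) = f a * g b := by simp [pr]

theorem pr_zero_right (i : Fin 4) (a : A K) : pr (c K i) (c K 0) (dA K a) = c K i a := by
  have : pr (c K i) (c K 0) ∘ₗ (dA K).toLinearMap = c K i := by
    apply lin_ext
    · simp [Algebra.TensorProduct.one_def, c_one]
    · simp [c_one, c_x]
    · simp only [LinearMap.comp_apply, AlgHom.toLinearMap_apply, dA_x2]; simp [c_one, c_x2]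
    · simp only [LinearMap.comp_apply, AlgHom.toLinearMap_apply, dA_x3]
      simp [c_one, c_x, c_x2, c_x3]
  exact congr($this a)

theorem pr_sq (i : Fin 4) (hi : i ≠ 0) (a : A K) : pr (c K i) (c K i) (dA K a) = 0 := by
  have : pr (c K i) (c K i) ∘ₗ (dA K).toLinearMap = 0 := by
    apply lin_ext
    · simp [Algebra.TensorProduct.one_def, c_one, hi.symm]
    · simp [c_one, hi.symm]
    · simp only [LinearMap.comp_apply, AlgHom.toLinearMap_apply, dA_x2]; simp [c_one, hi.symm]
    · simp only [LinearMap.comp_apply, AlgHom.toLinearMap_apply, dA_x3]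
      fin_cases i <;> simp [c_one, c_x, c_x2] at hi ⊢
  exact congr($this a)

theorem pr_12 (a : A K) : pr (c K 1) (c K 2) (dA K a) = c K 3 a := by
  have : pr (c K 1) (c K 2) ∘ₗ (dA K).toLinearMap = c K 3 := by
    apply lin_ext
    · simp [Algebra.TensorProduct.one_def, c_one]
    · simp [c_one, c_x]
    · simp only [LinearMap.comp_apply, AlgHom.toLinearMap_apply, dA_x2]; simp [c_one, c_x2]
    · simp only [LinearMap.comp_apply, AlgHom.toLinearMap_apply, dA_x3]
      simp [c_one, c_x, c_x2, c_x3]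
  exact congr($this a)

end

end Pool.Agent.H106Z.Bic
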