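import Mathlib
import Pool.Agent.H106Z.HopfA

set_option autoImplicit false

/-! The smash products of `K[x]/(x^4)` with the group algebra of the Klein four group. -/

namespace Pool.Agent.H106Z.Bic

open TensorProduct SkewMonoidAlgebra

noncomputable section

variable {K : Type} [Field K] [CharP K 2]

/-- the Klein four group -/
abbrev G0 : Type := Multiplicative (ZMod 2 × ZMod 2)

/-- a copy of the Klein four group, tagged by a parameter -/
def Gt (_l : K) : Type := G0

instance (l : K) : Group (Gt l) := inferInstanceAs (Group G0)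
instance (l : K) : DecidableEq (Gt l) := inferInstanceAs (DecidableEq G0)

/-- the underlying pair -/
def tz {l : K} (g : Gt l) : ZMod 2 × ZMod 2 := Multiplicative.toAdd (α := ZMod 2 × ZMod 2) g

/-- the additive character -/
def chi (l : K) (g : Gt l) : K :=
  ZMod.castHom (dvd_refl 2) K (tz g).1 + ZMod.castHom (dvd_refl 2) K (tz g).2 * l

theorem chi_one (l : K) : chi l 1 = 0 := by
  have : tz (1 : Gt l) = 0 := rfl
  simp [chi, this]

theorem chi_mul (l : K) (g h : Gt l) : chi l (g * h) = chi l g + chi l h := by
  have : tz (g * h) = tz g + tz h := rfl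
  simp only [chi, this, Prod.fst_add, Prod.snd_add, map_add]
  ring

instance (l : K) : MulSemiringAction (Gt l) (A K) where
  smul g a := sig (chi l g) a
  one_smul a := by
    change sig (chi l 1) a = a
    rw [chi_one, sig_zero]; rfl
  mul_smul g h a := by
    change sig (chi l (g * h)) a = sig (chi l g) (sig (chi l h) a)
    rw [chi_mul, sig_add]; rfl
  smul_zero g := map_zero (sig (chi l g))
  smul_add g := map_add (sig (chi l g))
  smul_one g := map_one (sig (chi l g))
  smul_mul g := map_mul (sig (chi l g))

theorem smul_def (l : K) (g : Gt l) (a : A K) : g • a = sig (chi l g) a := rfl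

instance (l : K) : SMulCommClass (Gt l) K (A K) where
  smul_comm g r a := map_smul (sig (chi l g)) r a

/-- the smash product -/
abbrev E (l : K) : Type := SkewMonoidAlgebra (A K) (Gt l)

/-- the inclusion of `A` -/
def io (l : K) : A K →ₐ[K] E l where
  __ := (singleOneRingHom : A K →+* E l)
  commutes' _ := rfl

theorem io_apply (l : K) (a : A K) : io l a = single 1 a := rfl

/-- the group elements -/
def og (l : K) : Gt l →* E l := SkewMonoidAlgebra.of (A K) (Gt l)

theorem og_apply (l : K) (g : Gt l) : og l g = single g 1 := rfl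

theorem single_eq (l : K) (g : Gt l) (a : A K) : (single g a : E l) = io l a * og l g := by
  simp [io_apply, og_apply, single_mul_single]

theorem og_io (l : K) (g : Gt l) (a : A K) : og l g * io l a = io l (g • a) * og l g := by
  simp [io_apply, og_apply, single_mul_single]

theorem E_ext {l : K} {T : Type} [Semiring T] [Algebra K T] {f g : E l →ₐ[K] T}
    (h1 : f (io l (x K)) = g (io l (x K))) (h2 : ∀ s, f (og l s) = g (og l s)) : f = g := by
  have h3 : f.comp (io l) = g.comp (io l) := hom_ext h1
  apply AlgHom.toLinearMap_injective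
  apply SkewMonoidAlgebra.lhom_ext
  intro s a
  have h4 : f (io l a) = g (io l a) := congr($h3 a)
  simp only [AlgHom.toLinearMap_apply, single_eq, map_mul, h2, h4]

theorem comm_of_x {T : Type} [Ring T] [Algebra K T] (f1 f2 : A K →ₐ[K] T) (u : T)
    (h : f1 (x K) * u = u * f2 (x K)) (a : A K) : f1 a * u = u * f2 a := by
  induction a using A_ind with
  | h0 r => simp [Algebra.commutes]
  | h1 => exact h
  | hadd a b ha hb => simp [add_mul, mul_add, ha, hb]
  | hmul a b ha hb => rw [map_mul, map_mul, mul_assoc, hb, ← mul_assoc, ha, mul_assoc]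

/-- diagonal map on the group -/
def og2 (l : K) : Gt l →* E l ⊗[K] E l where
  toFun g := og l g ⊗ₜ og l g
  map_one' := by simp [Algebra.TensorProduct.one_def]
  map_mul' g h := by simp

theorem og2_apply (l : K) (g : Gt l) : og2 l g = og l g ⊗ₜ og l g := rfl

/-- comultiplication on `A` followed by the inclusion -/
def dio (l : K) : A K →ₐ[K] E l ⊗[K] E l :=
  (Algebra.TensorProduct.map (io l) (io l)).comp (dA K)

theorem d_comm (l : K) (a : A K) (g : Gt l) :
    dio l (g • a) * og2 l g = og2 l g * dio l a := by
  refine comm_of_x ((dio l).comp (sig (chi l g))) (dio l) (og2 l g) ?_ a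
  have h1 := og_io l g (x K)
  rw [smul_def, sig_x] at h1
  simp only [AlgHom.comp_apply, sig_x, dio, map_add, map_smul, dA_x, dA_x2, og2_apply,
    Algebra.TensorProduct.map_tmul, map_one, mul_add, add_mul,
    smul_mul_assoc, Algebra.TensorProduct.tmul_mul_tmul, one_mul, mul_one, h1, add_tmul, tmul_add,
    smul_add, ← smul_tmul', tmul_smul]
  abel

/-- comultiplication -/
def dE (l : K) : E l →ₐ[K] E l ⊗[K] E l :=
  liftNCAlgHom (dio l) (og2 l) (fun {a g} => d_comm l a g)

theorem e_comm (l : K) (a : A K) (g : Gt l) : eA K (g • a) = eA K a := by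
  have : (eA K).comp (sig (chi l g)) = eA K := hom_ext (by simp)
  exact congr($this a)

/-- counit -/
def eE (l : K) : E l →ₐ[K] K :=
  liftNCAlgHom (eA K) (1 : Gt l →* K) (fun {a g} => by simp [e_comm])

theorem dE_single (l : K) (g : Gt l) (a : A K) :
    dE l (single g a) = Algebra.TensorProduct.map (io l) (io l) (dA K a) * (og l g ⊗ₜ og l g) := by
  simp [dE, liftNCAlgHom, liftNCRingHom, dio, og2_apply]

theorem eE_single (l : K) (g : Gt l) (a : A K) : eE l (single g a) = eA K a := by
  simp [eE, liftNCAlgHom, liftNCRingHom]

theorem dE_io (l : K) (a : A K) :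
    dE l (io l a) = Algebra.TensorProduct.map (io l) (io l) (dA K a) := by
  rw [io_apply, dE_single, map_one, ← Algebra.TensorProduct.one_def, mul_one]

@[simp] theorem dE_x (l : K) :
    dE l (io l (x K)) = io l (x K) ⊗ₜ 1 + 1 ⊗ₜ io l (x K) := by
  rw [dE_io]; simp

@[simp] theorem dE_og (l : K) (g : Gt l) : dE l (og l g) = og l g ⊗ₜ og l g := by
  rw [og_apply, dE_single, map_one, map_one, one_mul, og_apply]

theorem eE_io (l : K) (a : A K) : eE l (io l a) = eA K a := eE_single _ _ _

@[simp] theorem eE_x (l : K) : eE l (io l (x K)) = 0 := by rw [eE_io]; simp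

@[simp] theorem eE_og (l : K) (g : Gt l) : eE l (og l g) = 1 := by
  rw [og_apply, eE_single, map_one]

instance instBialgE (l : K) : Bialgebra K (E l) :=
  Bialgebra.ofAlgHom (dE l) (eE l)
    (E_ext (by simp [Algebra.TensorProduct.one_def, add_tmul, tmul_add, add_assoc])
      (fun s => by simp))
    (E_ext (by simp) (fun s => by simp))
    (E_ext (by simp) (fun s => by simp))

theorem comul_E (l : K) (e : E l) : Coalgebra.comul (R := K) e = dE l e := rfl
theorem counit_E (l : K) (e : E l) : Coalgebra.counit (R := K) e = eE l e := rfl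

/-- antipode -/
def sE (l : K) : E l →ₗ[K] E l :=
  (Finsupp.lsum K (fun g : Gt l => LinearMap.mulLeft K (og l g⁻¹) ∘ₗ (io l).toLinearMap)) ∘ₗ
    (coeffLinearEquiv (S := K) (k := A K) (G := Gt l)).toLinearMap

theorem sE_single (l : K) (g : Gt l) (a : A K) : sE l (single g a) = og l g⁻¹ * io l a := by
  simp [sE, coeffLinearEquiv]

theorem sE_mul (l : K) (g : Gt l) (a : A K) : sE l (io l a * og l g) = og l g⁻¹ * io l a := by
  rw [← single_eq, sE_single]

instance instHopfE (l : K) : HopfAlgebra K (E l) where
  antipode := sE l
  mul_antipode_rTensor_comul := by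
    apply SkewMonoidAlgebra.lhom_ext
    intro g a
    have : ∀ t : A K ⊗[K] A K, LinearMap.mul' K (E l) ((sE l).rTensor (E l)
        (Algebra.TensorProduct.map (io l) (io l) t * (og l g ⊗ₜ og l g))) =
        og l g⁻¹ * io l (Algebra.TensorProduct.lmul' K t) * og l g := by
      intro t
      induction t using TensorProduct.induction_on with
      | zero => simp
      | tmul u v => simp [sE_mul, mul_assoc]
      | add u v hu hv => simp only [map_add, add_mul, mul_add, hu, hv]
    simp only [LinearMap.comp_apply, comul_E, counit_E, dE_single, this, mul_dA, eE_single,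
      AlgHom.commutes, Algebra.linearMap_apply]
    rw [← Algebra.commutes, mul_assoc, ← map_mul, inv_mul_cancel, map_one, mul_one]
  mul_antipode_lTensor_comul := by
    apply SkewMonoidAlgebra.lhom_ext
    intro g a
    have : ∀ t : A K ⊗[K] A K, LinearMap.mul' K (E l) ((sE l).lTensor (E l)
        (Algebra.TensorProduct.map (io l) (io l) t * (og l g ⊗ₜ og l g))) =
        io l (Algebra.TensorProduct.lmul' K t) := by
      intro t
      induction t using TensorProduct.induction_on with
      | zero => simp
      | tmul u v =>
        simp only [Algebra.TensorProduct.map_tmul, Algebra.TensorProduct.tmul_mul_tmul,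
          LinearMap.lTensor_tmul, sE_mul, LinearMap.mul'_apply,
          Algebra.TensorProduct.lmul'_apply_tmul, map_mul]
        rw [mul_assoc, ← mul_assoc (og l g), ← map_mul, mul_inv_cancel, map_one, one_mul]
      | add u v hu hv => simp only [map_add, add_mul, hu, hv]
    simp only [LinearMap.comp_apply, comul_E, counit_E, dE_single, this, mul_dA, eE_single,
      AlgHom.commutes, Algebra.linearMap_apply]

end

end Pool.Agent.H106Z.Bic
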