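import Mathlib
import Pool.Agent.H106Z.HopfE

set_option autoImplicit false

/-! Factorisation and non-isomorphism. -/

namespace Pool.Agent.H106Z.Bic

open TensorProduct SkewMonoidAlgebra

noncomputable section

variable {K : Type} [Field K] [CharP K 2]

/-- the group algebra -/
abbrev H (K : Type) [Field K] : Type := MonoidAlgebra K G0

/-- `A` as a Hopf subalgebra -/
def iB (l : K) : A K →ₐc[K] E l :=
  BialgHom.ofAlgHom (io l) (hom_ext (by
      change eE l (io l (x K)) = eA K (x K)
      simp))
    (hom_ext (by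
      change Algebra.TensorProduct.map (io l) (io l) (dA K (x K)) = dE l (io l (x K))
      simp))

/-- the tagging map -/
def tag (l : K) : G0 →* Gt l := MonoidHom.id G0

/-- the untagging map -/
def untag {l : K} (g : Gt l) : G0 := g

/-- `H` as a subalgebra -/
def jA (l : K) : H K →ₐ[K] E l := MonoidAlgebra.lift K (E l) G0 ((og l).comp (tag l))

theorem jA_single (l : K) (g : G0) (r : K) :
    jA l (MonoidAlgebra.single g r) = r • og l (tag l g) := by
  simp [jA]

/-- `H` as a Hopf subalgebra -/
def jB (l : K) : H K →ₐc[K] E l :=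
  BialgHom.ofAlgHom (jA l)
    (MonoidAlgebra.algHom_ext (fun g => by
      change eE l (jA l (MonoidAlgebra.single g 1)) = Coalgebra.counit (MonoidAlgebra.single g (1 : K))
      simp [jA_single]) (by ext))
    (MonoidAlgebra.algHom_ext (fun g => by
      change Algebra.TensorProduct.map (jA l) (jA l)
        (Coalgebra.comul (MonoidAlgebra.single g (1 : K))) = dE l (jA l (MonoidAlgebra.single g 1))
      simp [jA_single]) (by ext))

/-- multiplication map -/
def mu (l : K) : A K ⊗[K] H K →ₗ[K] E l :=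
  TensorProduct.lift (((LinearMap.mul K (E l)).comp (iB l).toLinearMap).compl₂ (jB l).toLinearMap)

theorem mu_tmul (l : K) (a : A K) (h : H K) : mu l (a ⊗ₜ h) = io l a * jA l h := rfl

/-- its inverse -/
def nu (l : K) : E l →ₗ[K] A K ⊗[K] H K :=
  (Finsupp.lsum K (fun g : Gt l =>
    (TensorProduct.mk K (A K) (H K)).flip (MonoidAlgebra.single (untag g) 1))) ∘ₗ
    (coeffLinearEquiv (S := K) (k := A K) (G := Gt l)).toLinearMap

theorem nu_single (l : K) (g : Gt l) (a : A K) :
    nu l (single g a) = a ⊗ₜ MonoidAlgebra.single (untag g) 1 := by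
  simp [nu, coeffLinearEquiv]

theorem mu_nu (l : K) (e : E l) : mu l (nu l e) = e := by
  have : mu l ∘ₗ nu l = LinearMap.id := by
    apply SkewMonoidAlgebra.lhom_ext
    intro g a
    rw [LinearMap.comp_apply, nu_single, mu_tmul, jA_single, one_smul, LinearMap.id_apply,
      single_eq]
    rfl
  exact congr($this e)

theorem nu_mu (l : K) (t : A K ⊗[K] H K) : nu l (mu l t) = t := by
  induction t using TensorProduct.induction_on with
  | zero => simp
  | add u v hu hv => simp only [map_add, hu, hv]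
  | tmul a h =>
    induction h using MonoidAlgebra.induction_linear with
    | zero => simp
    | add u v hu hv => simp only [tmul_add, map_add, hu, hv]
    | single g r =>
      rw [mu_tmul, jA_single, mul_smul_comm, ← single_eq, map_smul, nu_single, ← tmul_smul]
      simp [untag, tag]
      rfl

theorem mu_bij (l : K) : Function.Bijective (mu l) :=
  Function.bijective_iff_has_inverse.2 ⟨nu l, nu_mu l, mu_nu l⟩

theorem io_inj (l : K) : Function.Injective (io l) := single_injective 1

theorem jA_inj (l : K) : Function.Injective (jA l) := by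
  intro h h' hh
  have h1 : mu l (1 ⊗ₜ h) = mu l (1 ⊗ₜ h') := by rw [mu_tmul, mu_tmul, hh]
  have h2 := (mu_bij l).1 h1
  have h3 := congrArg (fun t => TensorProduct.lid K (H K)
    (LinearMap.rTensor (H K) (eA K).toLinearMap t)) h2
  simpa using h3

/-- coordinates on the smash product -/
def cE (l : K) (i : Fin 4) (g : Gt l) : E l →ₗ[K] K :=
  c K i ∘ₗ Finsupp.lapply g ∘ₗ (coeffLinearEquiv (S := K) (k := A K) (G := Gt l)).toLinearMap

theorem cE_apply (l : K) (i : Fin 4) (g : Gt l) (e : E l) : cE l i g e = c K i (e.coeff g) := rfl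

theorem cE_single (l : K) (i : Fin 4) (g s : Gt l) (a : A K) :
    cE l i g (single s a) = if s = g then c K i a else 0 := by
  rw [cE_apply, coeff_single_apply]
  split_ifs <;> simp

theorem pr_dE (l : K) (i j : Fin 4) (g h s : Gt l) (a : A K) :
    pr (cE l i g) (cE l j h) (dE l (single s a)) =
      if s = g ∧ s = h then pr (c K i) (c K j) (dA K a) else 0 := by
  rw [dE_single]
  generalize dA K a = t
  induction t using TensorProduct.induction_on with
  | zero => simp
  | tmul u v =>
    simp only [Algebra.TensorProduct.map_tmul, Algebra.TensorProduct.tmul_mul_tmul, ← single_eq,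
      pr_tmul, cE_single]
    by_cases h1 : s = g <;> by_cases h2 : s = h <;> simp [h1, h2]
  | add u v hu hv =>
    simp only [map_add, add_mul, hu, hv]
    split_ifs <;> simp

theorem K1 (l : K) (i : Fin 4) (hi : i ≠ 0) (g : Gt l) (e : E l) :
    pr (cE l i g) (cE l i g) (dE l e) = 0 := by
  have : pr (cE l i g) (cE l i g) ∘ₗ (dE l).toLinearMap = 0 := by
    apply SkewMonoidAlgebra.lhom_ext
    intro s a
    simp [pr_dE, pr_sq i hi]
  exact congr($this e)

theorem K2 (l : K) (g h : Gt l) (hgh : g ≠ h) (e : E l) :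
    pr (cE l 0 g) (cE l 0 h) (dE l e) = 0 := by
  have : pr (cE l 0 g) (cE l 0 h) ∘ₗ (dE l).toLinearMap = 0 := by
    apply SkewMonoidAlgebra.lhom_ext
    intro s a
    have : ¬ (s = g ∧ s = h) := fun h1 => hgh (h1.1.symm.trans h1.2)
    simp [pr_dE, this]
  exact congr($this e)

theorem K3 (l : K) (i : Fin 4) (g : Gt l) (e : E l) :
    pr (cE l i g) (cE l 0 g) (dE l e) = cE l i g e := by
  have : pr (cE l i g) (cE l 0 g) ∘ₗ (dE l).toLinearMap = cE l i g := by
    apply SkewMonoidAlgebra.lhom_ext
    intro s a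
    simp [pr_dE, pr_zero_right, cE_single]
  exact congr($this e)

theorem K4 (l : K) (g : Gt l) (e : E l) :
    pr (cE l 1 g) (cE l 2 g) (dE l e) = cE l 3 g e := by
  have : pr (cE l 1 g) (cE l 2 g) ∘ₗ (dE l).toLinearMap = cE l 3 g := by
    apply SkewMonoidAlgebra.lhom_ext
    intro s a
    simp [pr_dE, pr_12, cE_single]
  exact congr($this e)

theorem grouplike (l : K) (γ : E l) (h : dE l γ = γ ⊗ₜ γ) (h0 : γ ≠ 0) : ∃ g, γ = og l g := by
  have h1 : ∀ i, i ≠ 0 → ∀ g, c K i (γ.coeff g) = 0 := by
    intro i hi g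
    have := K1 l i hi g γ
    rw [h, pr_tmul, mul_self_eq_zero] at this
    exact this
  have h2 : ∀ g, γ.coeff g = c K 0 (γ.coeff g) • (1 : A K) := by
    intro g
    conv_lhs => rw [expand (γ.coeff g)]
    rw [h1 1 (by decide), h1 2 (by decide), h1 3 (by decide)]
    simp
  have h3 : ∃ g, c K 0 (γ.coeff g) ≠ 0 := by
    by_contra h4
    push Not at h4
    apply h0
    ext g
    rw [h2 g, h4 g]
    simp
  obtain ⟨g, hg⟩ := h3
  refine ⟨g, ?_⟩
  ext s
  rw [og_apply, coeff_single_apply, h2 s]
  split_ifs with h4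
  · subst h4
    have := K3 l 0 g γ
    rw [h, pr_tmul, cE_apply] at this
    rw [mul_left_eq_self₀.1 this |>.resolve_right hg, one_smul]
  · have := K2 l g s h4 γ
    rw [h, pr_tmul, cE_apply, cE_apply] at this
    rw [(mul_eq_zero.1 this).resolve_left hg, zero_smul]

theorem primitive (l : K) (p : E l) (h : dE l p = p ⊗ₜ 1 + 1 ⊗ₜ p) :
    ∃ α β : K, p = io l (α • x K + β • x K ^ 2) := by
  have one : ∀ i g, cE l i g 1 = if 1 = g then (if 0 = i then 1 else 0) else 0 := by
    intro i g
    rw [one_def, cE_single, c_one]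
  refine ⟨c K 1 (p.coeff 1), c K 2 (p.coeff 1), ?_⟩
  ext s
  rw [io_apply, coeff_single_apply]
  split_ifs with h4
  · subst h4
    have h5 := K3 l 0 1 p
    have h6 := K4 l 1 p
    rw [h, map_add, pr_tmul, pr_tmul] at h5 h6
    simp only [one, if_true, cE_apply] at h5 h6
    simp at h5 h6
    conv_lhs => rw [expand (p.coeff 1)]
    rw [h5, ← h6]
    simp
  · have h5 : ∀ i, c K i (p.coeff s) = 0 := by
      intro i
      have h5 := K3 l i s p
      rw [h, map_add, pr_tmul, pr_tmul] at h5
      simp only [one, h4, if_false, cE_apply] at h5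
      simpa using h5.symm
    rw [expand (p.coeff s)]
    simp [h5]

theorem iso_rel {l m : K} (φ : E l ≃ₐc[K] E m) :
    ∃ u v : Gt m, chi m u ≠ 0 ∧ l * chi m u = chi m v := by
  have hd : ∀ e : E l, dE m (φ e) = TensorProduct.map (φ : E l →ₗ[K] E m) (φ : E l →ₗ[K] E m)
      (dE l e) := by
    intro e
    exact (CoalgHomClass.map_comp_comul_apply φ e).symm
  have hinj : Function.Injective φ := φ.injective
  obtain ⟨α, β, hp⟩ := primitive m (φ (io l (x K))) (by rw [hd, dE_x]; simp)
  have hsq : (α • x K + β • x K ^ 2) ^ 2 = (α ^ 2) • x K ^ 2 := by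
    have h2 : (2 : A K) = 0 := two_eq (K := K)
    have := x_pow4 K
    simp only [Algebra.smul_def, map_pow]
    linear_combination (algebraMap K (A K) β) ^ 2 * this +
      (algebraMap K (A K) α * algebraMap K (A K) β * x K ^ 3) * h2
  have hα : α ≠ 0 := by
    rintro rfl
    have h1 : φ (io l (x K ^ 2)) = φ (io l 0) := by
      rw [map_pow, map_pow, hp, ← map_pow, hsq]; simp
    have h2 := congrArg (c K 2) (io_inj l (hinj h1))
    simp [c_x2] at h2
  have key : ∀ g : Gt l, ∃ g' : Gt m, chi m g' = chi l g * α := by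
    intro g
    obtain ⟨g', hg'⟩ := grouplike m (φ (og l g)) (by rw [hd, dE_og]; simp) (by
      intro h1
      have h2 : og l g = 0 := hinj (by rw [h1, map_zero])
      have h3 := congrArg (eE l) h2
      simp at h3)
    refine ⟨g', ?_⟩
    have h1 := congrArg φ (og_io l g (x K))
    rw [smul_def, sig_x, map_mul, map_mul, map_add, map_smul, map_pow, map_add, map_smul, map_pow,
      hg', hp, og_io, ← map_pow, hsq, ← map_smul, ← map_add, ← single_eq, ← single_eq] at h1
    have h2 := congrArg (c K 2) (single_injective _ h1)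
    rw [smul_def, map_add, map_smul, map_smul, sig_x2, sig_x] at h2
    simp [c_x, c_x2] at h2
    apply mul_left_cancel₀ hα
    linear_combination h2
  obtain ⟨u, hu⟩ := key (tag l (Multiplicative.ofAdd (1, 0)))
  obtain ⟨v, hv⟩ := key (tag l (Multiplicative.ofAdd (0, 1)))
  have e1 : chi l (tag l (Multiplicative.ofAdd (1, 0))) = 1 := by
    have : tz (tag l (Multiplicative.ofAdd (1, 0))) = (1, 0) := rfl
    simp [chi, this]
  have e2 : chi l (tag l (Multiplicative.ofAdd (0, 1))) = l := by
    have : tz (tag l (Multiplicative.ofAdd (0, 1))) = (0, 1) := rfl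
    simp [chi, this]
  rw [e1, one_mul] at hu
  rw [e2] at hv
  exact ⟨u, v, hu ▸ hα, by rw [hu, hv]⟩

open Polynomial in
theorem deg_le {n m : ℕ}
    (φ : E (algebraMap (ZMod 2)[X] (RatFunc (ZMod 2)) (X ^ (n + 1))) ≃ₐc[RatFunc (ZMod 2)]
      E (algebraMap (ZMod 2)[X] (RatFunc (ZMod 2)) (X ^ (m + 1)))) : n ≤ m := by
  obtain ⟨u, v, hu, huv⟩ := iso_rel φ
  have hc : ZMod.castHom (dvd_refl 2) (RatFunc (ZMod 2)) =
      (algebraMap (ZMod 2)[X] (RatFunc (ZMod 2))).comp C := RingHom.ext_zmod _ _
  have hchi : ∀ w, chi (algebraMap (ZMod 2)[X] (RatFunc (ZMod 2)) (X ^ (m + 1))) w =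
      algebraMap (ZMod 2)[X] (RatFunc (ZMod 2)) (C (tz w).1 + C (tz w).2 * X ^ (m + 1)) := by
    intro w
    simp only [chi, hc, RingHom.comp_apply, map_add, map_mul]
  rw [hchi] at hu
  rw [hchi, hchi, ← map_mul] at huv
  have h1 := RatFunc.algebraMap_injective (ZMod 2) huv
  have h2 : (C (tz u).1 + C (tz u).2 * X ^ (m + 1) : (ZMod 2)[X]) ≠ 0 := by
    intro h; rw [h] at hu; exact hu (map_zero _)
  have h3 := congrArg natDegree h1
  rw [natDegree_mul (pow_ne_zero _ X_ne_zero) h2, natDegree_X_pow] at h3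
  have h4 : (C (tz v).1 + C (tz v).2 * X ^ (m + 1) : (ZMod 2)[X]).natDegree ≤ m + 1 := by
    compute_degree
  omega

end

end Pool.Agent.H106Z.Bic
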