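import Mathlib

set_option autoImplicit false

namespace Pool.Agent.H106Z.Psi

open Finset

variable {V : Type} [Fintype V] [DecidableEq V]

/-- some edge joins the classes `i` and `j` -/
def Cov (G : SimpleGraph V) (f : V → Fin 6) (i j : Fin 6) : Prop :=
  ∃ u v, G.Adj u v ∧ f u = i ∧ f v = j

omit [Fintype V] [DecidableEq V] in
theorem Cov.symm {G : SimpleGraph V} {f : V → Fin 6} {i j : Fin 6} (h : Cov G f i j) :
    Cov G f j i := by
  obtain ⟨u, v, h1, h2, h3⟩ := h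
  exact ⟨v, u, h1.symm, h3, h2⟩

omit [Fintype V] in
theorem ext_lab (X T : Finset V) (z : V) (g : V → Fin 5) (hX : 6 ≤ X.card)
    (hinj : Set.InjOn g T) :
    ∃ g' : V → Fin 5, (∀ x, (x ∉ X ∨ x ∈ insert z T) → g' x = g x) ∧ ∀ l, ∃ x ∈ X, g' x = l := by
  classical
  set A : Finset (Fin 5) := univ \ (X ∩ T).image g with hA
  set B : Finset V := X \ insert z T with hB
  have h1 : ((X ∩ T).image g).card = (X ∩ T).card :=
    card_image_of_injOn (hinj.mono (by intro x hx; exact (mem_inter.1 hx).2))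
  have h2 : A.card = 5 - (X ∩ T).card := by
    rw [hA, card_sdiff_of_subset (subset_univ _), h1]; simp
  have h3 : X.card ≤ B.card + ((X ∩ T).card + 1) := by
    have : X ⊆ B ∪ insert z (X ∩ T) := by
      intro x hx
      by_cases h : x ∈ insert z T
      · rcases mem_insert.1 h with h | h
        · exact mem_union_right _ (mem_insert.2 (Or.inl h))
        · exact mem_union_right _ (mem_insert.2 (Or.inr (mem_inter.2 ⟨hx, h⟩)))
      · exact mem_union_left _ (mem_sdiff.2 ⟨hx, h⟩)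
    calc X.card ≤ (B ∪ insert z (X ∩ T)).card := card_le_card this
      _ ≤ B.card + (insert z (X ∩ T)).card := card_union_le _ _
      _ ≤ _ := Nat.add_le_add_left (card_insert_le _ _) _
  have h4 : Fintype.card A ≤ Fintype.card B := by
    simp only [Fintype.card_coe]; omega
  obtain ⟨ι⟩ := Function.Embedding.nonempty_of_card_le h4
  refine ⟨fun x => if h : ∃ a : A, (ι a : V) = x then (h.choose : Fin 5) else g x, ?_, ?_⟩
  · intro x hx
    have : ¬ ∃ a : A, (ι a : V) = x := by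
      rintro ⟨a, ha⟩
      have hm := (ι a).2
      rw [ha, hB, mem_sdiff] at hm
      rcases hx with hx | hx
      · exact hx hm.1
      · exact hm.2 hx
    simp only [this, dite_false]
  · intro l
    by_cases hl : l ∈ (X ∩ T).image g
    · obtain ⟨x, hx, rfl⟩ := mem_image.1 hl
      refine ⟨x, (mem_inter.1 hx).1, ?_⟩
      have : ¬ ∃ a : A, (ι a : V) = x := by
        rintro ⟨a, ha⟩
        have hm := (ι a).2
        rw [ha, hB, mem_sdiff] at hm
        exact hm.2 (mem_insert_of_mem (mem_inter.1 hx).2)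
      simp only [this, dite_false]
    · have hlA : l ∈ A := mem_sdiff.2 ⟨mem_univ _, hl⟩
      have hm := (ι ⟨l, hlA⟩).2
      refine ⟨ι ⟨l, hlA⟩, (mem_sdiff.1 hm).1, ?_⟩
      have hex : ∃ a : A, (ι a : V) = ι ⟨l, hlA⟩ := ⟨_, rfl⟩
      simp only [hex, dite_true]
      have := hex.choose_spec
      have h5 : hex.choose = ⟨l, hlA⟩ := ι.injective (Subtype.ext this)
      rw [h5]

omit [Fintype V] in
theorem build (G : SimpleGraph V) (X : Finset V) (v w a0 a1 a2 a3 a4 a5 t1 t2 t3 t4 t5 : V)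
    (l1 l2 l3 l4 l5 : Fin 5) (hX : 6 ≤ X.card)
    (hXadj : ∀ x ∈ X, x ≠ v ∧ x ≠ w ∧ (G.Adj x v ∨ G.Adj x w))
    (hA : ∀ x, (x = a0 ∨ x = a1 ∨ x = a2 ∨ x = a3 ∨ x = a4 ∨ x = a5) →
      x ∉ X ∧ x ≠ v ∧ x ≠ w ∧ x ≠ t1 ∧ x ≠ t2 ∧ x ≠ t3 ∧ x ≠ t4 ∧ x ≠ t5)
    (hT : ∀ x, (x = t1 ∨ x = t2 ∨ x = t3 ∨ x = t4 ∨ x = t5) → x ≠ v ∧ x ≠ w)
    (e01 : G.Adj a0 a1) (e12 : G.Adj a1 a2) (e23 : G.Adj a2 a3) (e34 : G.Adj a3 a4)
    (e45 : G.Adj a4 a5)
    (n02 : a0 ≠ a2) (n03 : a0 ≠ a3) (n04 : a0 ≠ a4) (n13 : a1 ≠ a3) (n14 : a1 ≠ a4)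
    (n15 : a1 ≠ a5) (n24 : a2 ≠ a4) (n25 : a2 ≠ a5) (n35 : a3 ≠ a5)
    (m12 : t1 ≠ t2) (m13 : t1 ≠ t3) (m14 : t1 ≠ t4) (m23 : t2 ≠ t3) (m24 : t2 ≠ t4)
    (m34 : t3 ≠ t4) (m15 : t1 ≠ t5) (m25 : t2 ≠ t5) (m35 : t3 ≠ t5) (m45 : t4 = t5 → l4 = l5)
    (k12 : l1 ≠ l2) (k13 : l1 ≠ l3) (k14 : l1 ≠ l4) (k23 : l2 ≠ l3) (k24 : l2 ≠ l4)
    (k34 : l3 ≠ l4)
    (hcov : ∀ f : V → Fin 6, f a0 = 4 → f a1 = 0 → f a2 = 1 → f a3 = 2 → f a4 = 3 → f a5 = 4 →
      f t1 = l1.castSucc → f t2 = l2.castSucc → f t3 = l3.castSucc → f t4 = l4.castSucc →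
      f t5 = l5.castSucc →
      Cov G f 0 2 ∧ Cov G f 2 4 ∧ Cov G f 4 1 ∧ Cov G f 1 3 ∧ Cov G f 3 0) :
    ∃ f : V → Fin 6, ∀ i j, i ≠ j → Cov G f i j := by
  classical
  let g : V → Fin 5 := fun x => if x = t1 then l1 else if x = t2 then l2 else if x = t3 then l3
    else if x = t4 then l4 else if x = t5 then l5 else if x = a1 then 0 else if x = a2 then 1
    else if x = a3 then 2 else if x = a4 then 3 else 4
  have g1 : g t1 = l1 := by simp [g]
  have g2 : g t2 = l2 := by simp [g, m12.symm]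
  have g3 : g t3 = l3 := by simp [g, m13.symm, m23.symm]
  have g4 : g t4 = l4 := by simp [g, m14.symm, m24.symm, m34.symm]
  have g5 : g t5 = l5 := by
    by_cases h : t5 = t4
    · rw [h, g4]; exact m45 h.symm
    · simp [g, m15.symm, m25.symm, m35.symm, h]
  have n01 := e01.ne
  have n12 := e12.ne
  have n23 := e23.ne
  have n34 := e34.ne
  have n45 := e45.ne
  have hA0 := hA a0 (by simp)
  have hA1 := hA a1 (by simp)
  have hA2 := hA a2 (by simp)
  have hA3 := hA a3 (by simp)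
  have hA4 := hA a4 (by simp)
  have hA5 := hA a5 (by simp)
  have ga0 : g a0 = 4 := by simp [g, hA0, n01, n02, n03, n04]
  have ga1 : g a1 = 0 := by simp [g, hA1]
  have ga2 : g a2 = 1 := by simp [g, hA2, n12.symm]
  have ga3 : g a3 = 2 := by simp [g, hA3, n13.symm, n23.symm]
  have ga4 : g a4 = 3 := by simp [g, hA4, n14.symm, n24.symm, n34.symm]
  have ga5 : g a5 = 4 := by simp [g, hA5, n15.symm, n25.symm, n35.symm, n45.symm]
  have hinj : Set.InjOn g ({t1, t2, t3, t4} : Finset V) := by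
    intro x hx y hy hxy
    simp only [coe_insert, coe_singleton, Set.mem_insert_iff, Set.mem_singleton_iff] at hx hy
    rcases hx with rfl | rfl | rfl | rfl <;> rcases hy with rfl | rfl | rfl | rfl <;>
      first
      | rfl
      | (exfalso; simp only [g1, g2, g3, g4] at hxy; simp_all)
  obtain ⟨g', hg', hsurj⟩ := ext_lab X {t1, t2, t3, t4} t5 g hX hinj
  let f : V → Fin 6 := fun x => if x = v ∨ x = w then 5 else (g' x).castSucc
  have hf : ∀ x, x ≠ v → x ≠ w → f x = (g' x).castSucc := by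
    intro x h1 h2; simp [f, h1, h2]
  have fv : f v = 5 := by simp [f]
  have fw : f w = 5 := by simp [f]
  have fa : ∀ x, x ∉ X → x ≠ v → x ≠ w → f x = (g x).castSucc := by
    intro x h0 h1 h2; rw [hf x h1 h2, hg' x (Or.inl h0)]
  have ft : ∀ x, (x = t1 ∨ x = t2 ∨ x = t3 ∨ x = t4 ∨ x = t5) → f x = (g x).castSucc := by
    intro x h0
    rw [hf x (hT x h0).1 (hT x h0).2, hg' x (Or.inr (by simp; tauto))]
  have fa0 : f a0 = 4 := by rw [fa a0 hA0.1 hA0.2.1 hA0.2.2.1, ga0]; rfl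
  have fa1 : f a1 = 0 := by rw [fa a1 hA1.1 hA1.2.1 hA1.2.2.1, ga1]; rfl
  have fa2 : f a2 = 1 := by rw [fa a2 hA2.1 hA2.2.1 hA2.2.2.1, ga2]; rfl
  have fa3 : f a3 = 2 := by rw [fa a3 hA3.1 hA3.2.1 hA3.2.2.1, ga3]; rfl
  have fa4 : f a4 = 3 := by rw [fa a4 hA4.1 hA4.2.1 hA4.2.2.1, ga4]; rfl
  have fa5 : f a5 = 4 := by rw [fa a5 hA5.1 hA5.2.1 hA5.2.2.1, ga5]; rfl
  obtain ⟨c02, c24, c41, c13, c30⟩ := hcov f fa0 fa1 fa2 fa3 fa4 fa5
    (by rw [ft t1 (by simp), g1]) (by rw [ft t2 (by simp), g2]) (by rw [ft t3 (by simp), g3])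
    (by rw [ft t4 (by simp), g4]) (by rw [ft t5 (by simp), g5])
  have c01 : Cov G f 0 1 := ⟨a1, a2, e12, fa1, fa2⟩
  have c12 : Cov G f 1 2 := ⟨a2, a3, e23, fa2, fa3⟩
  have c23 : Cov G f 2 3 := ⟨a3, a4, e34, fa3, fa4⟩
  have c34 : Cov G f 3 4 := ⟨a4, a5, e45, fa4, fa5⟩
  have c40 : Cov G f 4 0 := ⟨a0, a1, e01, fa0, fa1⟩
  have c5 : ∀ l : Fin 5, Cov G f l.castSucc 5 := by
    intro l
    obtain ⟨x, hx, hl⟩ := hsurj l
    obtain ⟨h1, h2, h3⟩ := hXadj x hx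
    have := hf x h1 h2
    rw [hl] at this
    rcases h3 with h3 | h3
    · exact ⟨x, v, h3, this, fv⟩
    · exact ⟨x, w, h3, this, fw⟩
  have c05 : Cov G f 0 5 := c5 0
  have c15 : Cov G f 1 5 := c5 1
  have c25 : Cov G f 2 5 := c5 2
  have c35 : Cov G f 3 5 := c5 3
  have c45 : Cov G f 4 5 := c5 4
  refine ⟨f, fun i j hij => ?_⟩
  fin_cases i <;> fin_cases j <;>
    first
    | exact absurd rfl hij
    | assumption
    | (apply Cov.symm; assumption)

/-- the two extra neighbours -/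
theorem extras (G : SimpleGraph V) [DecidableRel G.Adj] (a b c : V) (P : V → Prop)
    (hdeg : 4 ≤ G.degree a) (hP : ∀ x, G.Adj a x → P x → x = b ∨ x = c) :
    ∃ p q, p ≠ q ∧ G.Adj a p ∧ G.Adj a q ∧ ¬ P p ∧ ¬ P q := by
  have h1 : 1 < ((G.neighborFinset a) \ {b, c}).card := by
    have h2 : (G.neighborFinset a).card ≤ ((G.neighborFinset a) \ {b, c}).card + ({b, c} : Finset V).card := by
      calc _ ≤ (((G.neighborFinset a) \ {b, c}) ∪ {b, c}).card := card_le_card (by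
            intro x hx
            by_cases h : x ∈ ({b, c} : Finset V)
            · exact mem_union_right _ h
            · exact mem_union_left _ (mem_sdiff.2 ⟨hx, h⟩))
        _ ≤ _ := card_union_le _ _
    have h3 : ({b, c} : Finset V).card ≤ 2 := card_le_two
    rw [G.card_neighborFinset_eq_degree] at h2
    omega
  obtain ⟨p, hp, q, hq, hpq⟩ := one_lt_card.1 h1
  simp only [mem_sdiff, SimpleGraph.mem_neighborFinset, mem_insert, mem_singleton] at hp hq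
  exact ⟨p, q, hpq, hp.1, hq.1, fun h => hp.2 (hP p hp.1 h), fun h => hq.2 (hP q hq.1 h)⟩

end Pool.Agent.H106Z.Psi
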