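import Mathlib
import Pool.Agent.H106Z.Psi

set_option autoImplicit false

namespace Pool.Agent.H106Z.Psi

open Finset

variable {V : Type} [Fintype V] [DecidableEq V]

theorem crit (G : SimpleGraph V) [DecidableRel G.Adj] (h : ¬ G.Colorable 4) :
    ∃ S : Finset V, (¬ ∃ c : V → Fin 4, ∀ u ∈ S, ∀ v ∈ S, G.Adj u v → c u ≠ c v) ∧
      ∀ s ∈ S, 4 ≤ G.degree s := by
  classical
  let F : Finset (Finset V) :=
    univ.filter (fun S => ¬ ∃ c : V → Fin 4, ∀ u ∈ S, ∀ v ∈ S, G.Adj u v → c u ≠ c v)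
  have hne : F.Nonempty := by
    refine ⟨univ, mem_filter.2 ⟨mem_univ _, ?_⟩⟩
    rintro ⟨c, hc⟩
    exact h ⟨SimpleGraph.Coloring.mk c (fun {u v} huv => hc u (mem_univ _) v (mem_univ _) huv)⟩
  obtain ⟨S, hS, hmin⟩ := exists_min_image F card hne
  refine ⟨S, (mem_filter.1 hS).2, fun s hs => ?_⟩
  by_contra hlt
  have h1 : S.erase s ∉ F := by
    intro h2
    have := hmin _ h2
    rw [card_erase_of_mem hs] at this
    have := card_pos.2 ⟨s, hs⟩
    omega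
  have h2 : ∃ c : V → Fin 4, ∀ u ∈ S.erase s, ∀ v ∈ S.erase s, G.Adj u v → c u ≠ c v := by
    by_contra h3
    exact h1 (mem_filter.2 ⟨mem_univ _, h3⟩)
  obtain ⟨c, hc⟩ := h2
  have h3 : ∃ k : Fin 4, k ∉ (G.neighborFinset s).image c := by
    by_contra h4
    push Not at h4
    have h5 : (univ : Finset (Fin 4)) ⊆ (G.neighborFinset s).image c := fun k _ => h4 k
    have h6 := card_le_card h5
    have h7 := card_image_le (s := G.neighborFinset s) (f := c)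
    rw [G.card_neighborFinset_eq_degree] at h7
    simp at h6
    omega
  obtain ⟨k, hk⟩ := h3
  apply (mem_filter.1 hS).2
  refine ⟨Function.update c s k, fun u hu v hv huv => ?_⟩
  by_cases h4 : u = s
  · subst h4
    rw [Function.update_self, Function.update_of_ne huv.ne.symm]
    intro h5
    exact hk (mem_image.2 ⟨v, by simpa using huv, h5.symm⟩)
  · by_cases h5 : v = s
    · subst h5
      rw [Function.update_self, Function.update_of_ne h4]
      intro h6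
      exact hk (mem_image.2 ⟨u, by simpa using huv.symm, h6⟩)
    · rw [Function.update_of_ne h4, Function.update_of_ne h5]
      exact hc u (mem_erase.2 ⟨h4, hu⟩) v (mem_erase.2 ⟨h5, hv⟩) huv

/-- a walk of length `k` -/
def W (G : SimpleGraph V) (k : ℕ) (x y : V) : Prop := ∃ p : G.Walk x y, p.length = k

omit [Fintype V] [DecidableEq V] in
theorem W.trans {G : SimpleGraph V} {k l : ℕ} {x y z : V} (h1 : W G k x y) (h2 : W G l y z) :
    W G (k + l) x z := by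
  obtain ⟨p, rfl⟩ := h1
  obtain ⟨q, rfl⟩ := h2
  exact ⟨p.append q, by simp⟩

omit [Fintype V] [DecidableEq V] in
theorem W.one {G : SimpleGraph V} {x y : V} (h : G.Adj x y) : W G 1 x y :=
  ⟨h.toWalk, by simp⟩

omit [Fintype V] [DecidableEq V] in
theorem path6 (G : SimpleGraph V) (htri : ∀ x y z, G.Adj x y → G.Adj y z → ¬ G.Adj x z)
    (h : ¬ G.Colorable 2) :
    ∃ a0 a1 a2 a3 a4 a5 : V, G.Adj a0 a1 ∧ G.Adj a1 a2 ∧ G.Adj a2 a3 ∧ G.Adj a3 a4 ∧ G.Adj a4 a5 ∧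
      a0 ≠ a2 ∧ a0 ≠ a3 ∧ a0 ≠ a4 ∧ a1 ≠ a3 ∧ a1 ≠ a4 ∧ a1 ≠ a5 ∧ a2 ≠ a4 ∧ a2 ≠ a5 ∧ a3 ≠ a5 ∧
      ¬ G.Adj a0 a3 ∧ ¬ G.Adj a0 a5 ∧ ¬ G.Adj a1 a4 ∧ ¬ G.Adj a2 a5 ∧
      (G.Adj a1 a5 → a5 = a0) ∧ (G.Adj a0 a4 → a0 = a5) := by
  classical
  rw [SimpleGraph.two_colorable_iff_forall_loop_even] at h
  push Not at h
  have hex : ∃ m, Odd m ∧ ∃ u, W G m u u := by
    obtain ⟨u, p, hp⟩ := h
    exact ⟨p.length, Nat.not_even_iff_odd.1 hp, u, p, rfl⟩
  obtain ⟨hodd, u, p, hp⟩ := Nat.find_spec hex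
  set m := Nat.find hex with hm
  have hmin : ∀ k, k < m → Odd k → ∀ x, ¬ W G k x x := by
    intro k hk hk2 x hx
    exact Nat.find_min hex hk ⟨hk2, x, hx⟩
  let a : ℕ → V := p.getVert
  have hadj : ∀ i, i < m → G.Adj (a i) (a (i + 1)) := by
    intro i hi
    exact p.adj_getVert_succ (by omega)
  have ham : a m = a 0 := by
    simp only [a]
    rw [← hp, p.getVert_length, p.getVert_zero]
  have seg : ∀ i d, i + d ≤ m → W G d (a i) (a (i + d)) := by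
    intro i d
    induction d with
    | zero => intro _; exact ⟨SimpleGraph.Walk.nil, rfl⟩
    | succ d ih => intro hd; exact (ih (by omega)).trans (W.one (hadj (i + d) (by omega)))
  have hm1 : m ≠ 1 := by
    intro h1
    have := hadj 0 (by omega)
    rw [h1] at ham
    rw [zero_add, ham] at this
    exact this.ne rfl
  have hm3 : m ≠ 3 := by
    intro h3
    have h0 := hadj 0 (by omega)
    have h1 := hadj 1 (by omega)
    have h2 := hadj 2 (by omega)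
    rw [h3] at ham
    simp only [Nat.reduceAdd, ham] at h0 h1 h2
    exact htri _ _ _ h0 h1 h2.symm
  obtain ⟨r, hr⟩ := hodd
  have hm5 : 5 ≤ m := by omega
  have inner_adj : ∀ i d, i + d ≤ m → d + 1 < m → Even d → ¬ G.Adj (a i) (a (i + d)) := by
    intro i d h1 h2 h3 h4
    exact hmin (d + 1) h2 h3.add_one _ ((seg i d h1).trans (W.one h4.symm))
  have outer_adj : ∀ i d, i + d ≤ m → 1 < d → Odd d → ¬ G.Adj (a i) (a (i + d)) := by
    intro i d h1 h2 h3 h4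
    have h5 := seg 0 i (by omega)
    have h6 := seg (i + d) (m - (i + d)) (by omega)
    rw [show i + d + (m - (i + d)) = m by omega, ham] at h6
    rw [zero_add] at h5
    obtain ⟨s, hs⟩ := h3
    exact hmin _ (by omega) ⟨r - s, by omega⟩ _ ((h5.trans (W.one h4)).trans h6)
  have inner_eq : ∀ i d, i + d ≤ m → d < m → Odd d → a i ≠ a (i + d) := by
    intro i d h1 h2 h3 h4
    have := seg i d h1
    rw [← h4] at this
    exact hmin d h2 h3 _ this
  have outer_eq : ∀ i d, i + d ≤ m → 0 < d → Even d → a i ≠ a (i + d) := by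
    intro i d h1 h2 h3 h4
    have h5 := seg 0 i (by omega)
    have h6 := seg (i + d) (m - (i + d)) (by omega)
    rw [show i + d + (m - (i + d)) = m by omega, ham, ← h4] at h6
    rw [zero_add] at h5
    obtain ⟨s, hs⟩ := h3
    exact hmin _ (by omega) ⟨r - s, by omega⟩ _ (h5.trans h6)
  have h05 : m = 5 → a 5 = a 0 := by intro h5; rw [← h5]; exact ham
  refine ⟨a 0, a 1, a 2, a 3, a 4, a 5, hadj 0 (by omega), hadj 1 (by omega), hadj 2 (by omega),
    hadj 3 (by omega), hadj 4 (by omega),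
    outer_eq 0 2 (by omega) (by omega) (by decide), inner_eq 0 3 (by omega) (by omega) (by decide),
    outer_eq 0 4 (by omega) (by omega) (by decide), outer_eq 1 2 (by omega) (by omega) (by decide),
    inner_eq 1 3 (by omega) (by omega) (by decide), outer_eq 1 4 (by omega) (by omega) (by decide),
    outer_eq 2 2 (by omega) (by omega) (by decide), inner_eq 2 3 (by omega) (by omega) (by decide),
    outer_eq 3 2 (by omega) (by omega) (by decide),
    outer_adj 0 3 (by omega) (by omega) (by decide),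
    outer_adj 0 5 (by omega) (by omega) (by decide),
    outer_adj 1 3 (by omega) (by omega) (by decide),
    outer_adj 2 3 (by omega) (by omega) (by decide), ?_, ?_⟩
  · intro h1
    by_cases h5 : m = 5
    · exact h05 h5
    · exact absurd h1 (inner_adj 1 4 (by omega) (by omega) (by decide))
  · intro h1
    by_cases h5 : m = 5
    · exact (h05 h5).symm
    · exact absurd h1 (inner_adj 0 4 (by omega) (by omega) (by decide))

/-- Main theorem: a triangle-free graph that is not four-colourable has a complete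
colouring with six classes. -/
theorem main (G : SimpleGraph V) (htri : ∀ x y z, G.Adj x y → G.Adj y z → ¬ G.Adj x z)
    (h : ¬ G.Colorable 4) : ∃ f : V → Fin 6, ∀ i j, i ≠ j → Cov G f i j := by
  classical
  obtain ⟨S, hS, hdeg⟩ := crit G h
  have hedge : ∃ v ∈ S, ∃ w ∈ S, G.Adj v w := by
    by_contra h1
    push Not at h1
    exact hS ⟨fun _ => 0, fun u hu v hv huv => absurd huv (h1 u hu v hv)⟩
  obtain ⟨v, hv, w, hw, hvw⟩ := hedge
  let R : V → Prop := fun x => x ∈ S ∧ ¬ G.Adj x v ∧ ¬ G.Adj x w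
  let G' : SimpleGraph V :=
    { Adj := fun x y => G.Adj x y ∧ R x ∧ R y
      symm := ⟨fun x y h => ⟨h.1.symm, h.2.2, h.2.1⟩⟩
      loopless := ⟨fun x h => h.1.ne rfl⟩ }
  have hG' : ¬ G'.Colorable 2 := by
    rintro ⟨c⟩
    apply hS
    refine ⟨fun x => if G.Adj x v then 2 else if G.Adj x w then 3 else Fin.castLE (by norm_num) (c x),
      fun x hx y hy hxy => ?_⟩
    have hc : ∀ z : V, ((Fin.castLE (by norm_num) (c z) : Fin 4) : ℕ) < 2 := fun z => (c z).2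
    by_cases h1 : G.Adj x v <;> by_cases h2 : G.Adj y v <;> by_cases h3 : G.Adj x w <;>
      by_cases h4 : G.Adj y w <;> simp only [h1, h2, h3, h4, if_true, if_false] <;>
      first
      | exact absurd h1 (htri _ _ _ hxy h2)
      | exact absurd h3 (htri _ _ _ hxy h4)
      | decide
      | (intro h5; have := hc y; rw [← h5] at this; revert this; decide)
      | (intro h5; have := hc x; rw [h5] at this; revert this; decide)
      | (intro h5
         exact c.valid (show G'.Adj x y from ⟨hxy, ⟨hx, h1, h3⟩, ⟨hy, h2, h4⟩⟩)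
           (Fin.castLE_injective _ h5))
  obtain ⟨a0, a1, a2, a3, a4, a5, e01, e12, e23, e34, e45, n02, n03, n04, n13, n14, n15, n24, n25,
    n35, z03, z05, z14, z25, z15, z04⟩ :=
    path6 G' (fun x y z h1 h2 h3 => htri x y z h1.1 h2.1 h3.1) hG'
  have r0 : R a0 := e01.2.1
  have r1 : R a1 := e01.2.2
  have r2 : R a2 := e12.2.2
  have r3 : R a3 := e23.2.2
  have r4 : R a4 := e34.2.2
  have r5 : R a5 := e45.2.2
  replace e01 := e01.1
  replace e12 := e12.1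
  replace e23 := e23.1
  replace e34 := e34.1
  replace e45 := e45.1
  replace z03 : ¬ G.Adj a0 a3 := fun h => z03 ⟨h, r0, r3⟩
  replace z05 : ¬ G.Adj a0 a5 := fun h => z05 ⟨h, r0, r5⟩
  replace z14 : ¬ G.Adj a1 a4 := fun h => z14 ⟨h, r1, r4⟩
  replace z25 : ¬ G.Adj a2 a5 := fun h => z25 ⟨h, r2, r5⟩
  replace z15 : G.Adj a1 a5 → a5 = a0 := fun h => z15 ⟨h, r1, r5⟩
  replace z04 : G.Adj a0 a4 → a0 = a5 := fun h => z04 ⟨h, r0, r4⟩
  have z02 := htri _ _ _ e01 e12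
  have z13 := htri _ _ _ e12 e23
  have z24 := htri _ _ _ e23 e34
  have z35 := htri _ _ _ e34 e45
  let P : V → Prop := fun x => x = a0 ∨ x = a1 ∨ x = a2 ∨ x = a3 ∨ x = a4 ∨ x = a5
  obtain ⟨p0, q0, d0, hp0, hq0, np0, nq0⟩ := extras G a0 a1 a4 P (hdeg _ r0.1) (by
    rintro x hx (rfl | rfl | rfl | rfl | rfl | rfl) <;> first
      | exact absurd rfl hx.ne | simp; done | exact absurd hx ‹_›)
  obtain ⟨p1, q1, d1, hp1, hq1, np1, nq1⟩ := extras G a1 a0 a2 P (hdeg _ r1.1) (by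
    rintro x hx (rfl | rfl | rfl | rfl | rfl | rfl) <;> first
      | exact absurd rfl hx.ne | simp; done | exact absurd hx ‹_› | exact Or.inl (z15 hx))
  obtain ⟨p2, q2, d2, hp2, hq2, np2, nq2⟩ := extras G a2 a1 a3 P (hdeg _ r2.1) (by
    rintro x hx (rfl | rfl | rfl | rfl | rfl | rfl) <;> first
      | exact absurd rfl hx.ne | simp; done | exact absurd hx ‹_› | exact absurd hx.symm ‹_›)
  obtain ⟨p3, q3, d3, hp3, hq3, np3, nq3⟩ := extras G a3 a2 a4 P (hdeg _ r3.1) (by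
    rintro x hx (rfl | rfl | rfl | rfl | rfl | rfl) <;> first
      | exact absurd rfl hx.ne | simp; done | exact absurd hx ‹_› | exact absurd hx.symm ‹_›)
  obtain ⟨p4, q4, d4, hp4, hq4, np4, nq4⟩ := extras G a4 a3 a5 P (hdeg _ r4.1) (by
    rintro x hx (rfl | rfl | rfl | rfl | rfl | rfl) <;> first
      | exact absurd rfl hx.ne | simp; done | exact absurd hx ‹_› | exact absurd hx.symm ‹_›
      | exact Or.inr (z04 hx.symm))
  obtain ⟨p5, q5, d5, hp5, hq5, np5, nq5⟩ := extras G a5 a4 a1 P (hdeg _ r5.1) (by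
    rintro x hx (rfl | rfl | rfl | rfl | rfl | rfl) <;> first
      | exact absurd rfl hx.ne | simp; done | exact absurd hx ‹_› | exact absurd hx.symm ‹_›)
  let X : Finset V := (G.neighborFinset v).erase w ∪ (G.neighborFinset w).erase v
  have hX : 6 ≤ X.card := by
    have h1 : Disjoint ((G.neighborFinset v).erase w) ((G.neighborFinset w).erase v) := by
      rw [disjoint_left]
      intro x h1 h2
      simp only [mem_erase, SimpleGraph.mem_neighborFinset] at h1 h2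
      exact htri _ _ _ hvw h2.2 h1.2
    have h2 := hdeg v hv
    have h3 := hdeg w hw
    rw [card_union_of_disjoint h1, card_erase_of_mem (by simpa using hvw),
      card_erase_of_mem (by simpa using hvw.symm), G.card_neighborFinset_eq_degree,
      G.card_neighborFinset_eq_degree]
    omega
  have hXadj : ∀ x ∈ X, x ≠ v ∧ x ≠ w ∧ (G.Adj x v ∨ G.Adj x w) := by
    intro x hx
    simp only [X, mem_union, mem_erase, SimpleGraph.mem_neighborFinset] at hx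
    rcases hx with hx | hx
    · exact ⟨hx.2.ne.symm, hx.1, Or.inl hx.2.symm⟩
    · exact ⟨hx.1, hx.2.ne.symm, Or.inr hx.2.symm⟩
  have hPR : ∀ x, P x → R x := by
    rintro x (rfl | rfl | rfl | rfl | rfl | rfl) <;> assumption
  have key : ∀ (t1 t2 t3 t4 t5 : V) (l1 l2 l3 l4 l5 : Fin 5),
      (∀ x, (x = t1 ∨ x = t2 ∨ x = t3 ∨ x = t4 ∨ x = t5) → ¬ P x ∧ ∃ y, P y ∧ G.Adj y x) →
      t1 ≠ t2 → t1 ≠ t3 → t1 ≠ t4 → t2 ≠ t3 → t2 ≠ t4 → t3 ≠ t4 → t1 ≠ t5 → t2 ≠ t5 → t3 ≠ t5 →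
      (t4 = t5 → l4 = l5) → l1 ≠ l2 → l1 ≠ l3 → l1 ≠ l4 → l2 ≠ l3 → l2 ≠ l4 → l3 ≠ l4 →
      (∀ f : V → Fin 6, f a0 = 4 → f a1 = 0 → f a2 = 1 → f a3 = 2 → f a4 = 3 → f a5 = 4 →
        f t1 = l1.castSucc → f t2 = l2.castSucc → f t3 = l3.castSucc → f t4 = l4.castSucc →
        f t5 = l5.castSucc →
        Cov G f 0 2 ∧ Cov G f 2 4 ∧ Cov G f 4 1 ∧ Cov G f 1 3 ∧ Cov G f 3 0) →
      ∃ f : V → Fin 6, ∀ i j, i ≠ j → Cov G f i j := by
    intro t1 t2 t3 t4 t5 l1 l2 l3 l4 l5 hT m12 m13 m14 m23 m24 m34 m15 m25 m35 m45 k12 k13 k14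
      k23 k24 k34 hcov
    refine build G X v w a0 a1 a2 a3 a4 a5 t1 t2 t3 t4 t5 l1 l2 l3 l4 l5 hX hXadj ?_ ?_ e01 e12 e23
      e34 e45 n02 n03 n04 n13 n14 n15 n24 n25 n35 m12 m13 m14 m23 m24 m34 m15 m25 m35 m45 k12 k13
      k14 k23 k24 k34 hcov
    · intro x hx
      have hR := hPR x hx
      refine ⟨fun h1 => ?_, ?_, ?_, ?_, ?_, ?_, ?_, ?_⟩
      · rcases (hXadj x h1).2.2 with h2 | h2
        · exact hR.2.1 h2
        · exact hR.2.2 h2
      · rintro rfl; exact hR.2.2 hvw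
      · rintro rfl; exact hR.2.1 hvw.symm
      · rintro rfl; exact (hT x (by simp)).1 hx
      · rintro rfl; exact (hT x (by simp)).1 hx
      · rintro rfl; exact (hT x (by simp)).1 hx
      · rintro rfl; exact (hT x (by simp)).1 hx
      · rintro rfl; exact (hT x (by simp)).1 hx
    · intro x hx
      obtain ⟨_, y, hy, hyx⟩ := hT x hx
      have hR := hPR y hy
      constructor
      · rintro rfl; exact hR.2.1 hyx
      · rintro rfl; exact hR.2.2 hyx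
  have P0 : P a0 := by simp [P]
  have P1 : P a1 := by simp [P]
  have P2 : P a2 := by simp [P]
  have P3 : P a3 := by simp [P]
  have P4 : P a4 := by simp [P]
  have P5 : P a5 := by simp [P]
  -- neighbours of adjacent vertices differ
  have dif : ∀ {x y s t : V}, G.Adj x y → G.Adj x s → G.Adj y t → s ≠ t := by
    intro x y s t h1 h2 h3 h4
    subst h4
    exact htri _ _ _ h1 h3 h2
  -- choose a neighbour avoiding a given vertex
  have avoid : ∀ (x p q t : V), p ≠ q → G.Adj x p → G.Adj x q → ¬ P p → ¬ P q →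
      ∃ s, G.Adj x s ∧ ¬ P s ∧ s ≠ t := by
    intro x p q t h1 h2 h3 h4 h5
    by_cases h6 : p = t
    · exact ⟨q, h3, h5, fun h7 => h1 (h6.trans h7.symm)⟩
    · exact ⟨p, h2, h4, h6⟩
  by_cases caseA : ∃ t1, G.Adj a1 t1 ∧ ¬ P t1 ∧ t1 ≠ p3 ∧ t1 ≠ q3
  · obtain ⟨t1, h1, h2, h3, h4⟩ := caseA
    obtain ⟨t4, h5, h6, h7⟩ := avoid a4 p4 q4 t1 d4 hp4 hq4 np4 nq4
    obtain ⟨t2, h8, h9, h10⟩ := avoid a2 p2 q2 t4 d2 hp2 hq2 np2 nq2
    refine key p3 q3 t1 t4 t2 4 0 3 1 4 ?_ d3 h3.symm (dif e34 hp3 h5) h4.symm (dif e34 hq3 h5)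
      h7.symm (dif e23 h8 hp3).symm (dif e23 h8 hq3).symm (dif e12 h1 h8)
      (fun h => absurd h.symm h10) (by decide) (by decide) (by decide) (by decide) (by decide)
      (by decide) ?_
    · rintro x (rfl | rfl | rfl | rfl | rfl)
      exacts [⟨np3, _, P3, hp3⟩, ⟨nq3, _, P3, hq3⟩, ⟨h2, _, P1, h1⟩, ⟨h6, _, P4, h5⟩,
        ⟨h9, _, P2, h8⟩]
    · intro f f0 f1 f2 f3 f4 f5 g1 g2 g3 g4 g5
      exact ⟨⟨_, _, hq3.symm, g2, f3⟩, ⟨_, _, hp3, f3, g1⟩, ⟨_, _, h8.symm, g5, f2⟩,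
        ⟨_, _, h5.symm, g4, f4⟩, ⟨_, _, h1.symm, g3, f1⟩⟩
  by_cases caseB : ∃ t4, G.Adj a4 t4 ∧ ¬ P t4 ∧ t4 ≠ p2 ∧ t4 ≠ q2
  · obtain ⟨t4, h1, h2, h3, h4⟩ := caseB
    obtain ⟨t1, h5, h6, h7⟩ := avoid a1 p1 q1 t4 d1 hp1 hq1 np1 nq1
    obtain ⟨t3, h8, h9, h10⟩ := avoid a3 p3 q3 t1 d3 hp3 hq3 np3 nq3
    refine key p2 q2 t4 t1 t3 4 3 0 2 4 ?_ d2 h3.symm (dif e12 h5 hp2).symm h4.symm
      (dif e12 h5 hq2).symm
      h7.symm (dif e23 hp2 h8) (dif e23 hq2 h8) (dif e34 h8 h1).symm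
      (fun h => absurd h.symm h10) (by decide) (by decide) (by decide) (by decide) (by decide)
      (by decide) ?_
    · rintro x (rfl | rfl | rfl | rfl | rfl)
      exacts [⟨np2, _, P2, hp2⟩, ⟨nq2, _, P2, hq2⟩, ⟨h2, _, P4, h1⟩, ⟨h6, _, P1, h5⟩,
        ⟨h9, _, P3, h8⟩]
    · intro f f0 f1 f2 f3 f4 f5 g1 g2 g3 g4 g5
      exact ⟨⟨_, _, h5, f1, g4⟩, ⟨_, _, h8, f3, g5⟩, ⟨_, _, hp2.symm, g1, f2⟩,
        ⟨_, _, hq2, f2, g2⟩, ⟨_, _, h1, f4, g3⟩⟩
  push Not at caseA caseB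
  have both : ∀ (x p q s t : V), p ≠ q → G.Adj x p → G.Adj x q → (p ≠ s → p = t) →
      (q ≠ s → q = t) → G.Adj x s ∧ G.Adj x t := by
    intro x p q s t h1 h2 h3 h4 h5
    by_cases h6 : p = s
    · have h7 : q = t := h5 (fun h8 => h1 (h6.trans h8.symm))
      exact ⟨h6 ▸ h2, h7 ▸ h3⟩
    · have h7 := h4 h6
      have h8 : q = s := by
        by_contra h9
        exact h1 (h7.trans (h5 h9).symm)
      exact ⟨h8 ▸ h3, h7 ▸ h2⟩
  obtain ⟨u1, u2⟩ := both a1 p1 q1 p3 q3 d1 hp1 hq1 (caseA p1 hp1 np1) (caseA q1 hq1 nq1)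
  obtain ⟨u3, u4⟩ := both a4 p4 q4 p2 q2 d4 hp4 hq4 (caseB p4 hp4 np4) (caseB q4 hq4 nq4)
  by_cases caseC : ∃ t, (G.Adj a0 t ∨ G.Adj a5 t) ∧ ¬ P t ∧ t ≠ p2 ∧ t ≠ q2 ∧ t ≠ p3 ∧ t ≠ q3
  · obtain ⟨t, h1, h2, h3, h4, h5, h6⟩ := caseC
    refine key p3 q3 p2 q2 t 2 4 3 0 1 ?_ d3 (dif e23 hp2 hp3).symm (dif e23 hq2 hp3).symm
      (dif e23 hp2 hq3).symm (dif e23 hq2 hq3).symm d2 h5.symm h6.symm h3.symm
      (fun h => absurd h.symm h4) (by decide) (by decide) (by decide) (by decide) (by decide)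
      (by decide) ?_
    · rintro x (rfl | rfl | rfl | rfl | rfl)
      exacts [⟨np3, _, P3, hp3⟩, ⟨nq3, _, P3, hq3⟩, ⟨np2, _, P2, hp2⟩, ⟨nq2, _, P2, hq2⟩,
        ⟨h2, h1.elim (fun h => ⟨_, P0, h⟩) (fun h => ⟨_, P5, h⟩)⟩]
    · intro f f0 f1 f2 f3 f4 f5 g1 g2 g3 g4 g5
      exact ⟨⟨_, _, u1, f1, g1⟩, ⟨_, _, hq3, f3, g2⟩,
        h1.elim (fun h => ⟨_, _, h, f0, g5⟩) (fun h => ⟨_, _, h, f5, g5⟩),
        ⟨_, _, hp2, f2, g3⟩, ⟨_, _, u4, f4, g4⟩⟩
  push Not at caseC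
  obtain ⟨u5, u6⟩ := both a0 p0 q0 p2 q2 d0 hp0 hq0
    (fun h => by
      by_contra h'
      exact dif e01 hp0 u2 (caseC p0 (Or.inl hp0) np0 h h' (dif e01 hp0 u1)))
    (fun h => by
      by_contra h'
      exact dif e01 hq0 u2 (caseC q0 (Or.inl hq0) nq0 h h' (dif e01 hq0 u1)))
  obtain ⟨u7, u8⟩ := both a5 p5 q5 p3 q3 d5 hp5 hq5
    (fun h => caseC p5 (Or.inr hp5) np5 (dif e45 u3 hp5).symm (dif e45 u4 hp5).symm h)
    (fun h => caseC q5 (Or.inr hq5) nq5 (dif e45 u3 hq5).symm (dif e45 u4 hq5).symm h)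
  refine key p2 q2 p3 q3 q3 1 0 2 3 3 ?_ d2 (dif e23 hp2 hp3) (dif e23 hp2 hq3)
      (dif e23 hq2 hp3) (dif e23 hq2 hq3) d3 (dif e23 hp2 hq3) (dif e23 hq2 hq3) d3
      (fun _ => rfl) (by decide) (by decide) (by decide) (by decide) (by decide)
      (by decide) ?_
  · rintro x (rfl | rfl | rfl | rfl | rfl)
    exacts [⟨np2, _, P2, hp2⟩, ⟨nq2, _, P2, hq2⟩, ⟨np3, _, P3, hp3⟩, ⟨nq3, _, P3, hq3⟩,
      ⟨nq3, _, P3, hq3⟩]
  · intro f f0 f1 f2 f3 f4 f5 g1 g2 g3 g4 g5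
    exact ⟨⟨_, _, u1, f1, g3⟩, ⟨_, _, u7.symm, g3, f5⟩, ⟨_, _, u5, f0, g1⟩,
      ⟨_, _, u3.symm, g1, f4⟩, ⟨_, _, u4, f4, g2⟩⟩

end Pool.Agent.H106Z.Psi
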