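import Mathlib

set_option autoImplicit false

/-! Two-choice random k-SAT: counting lemmas. -/

namespace Pool.Agent.H106Z.Sat

open Finset Classical

/-- at least `t` of `m` independent steps fall in `E` -/
theorem many_le {Ω : Type} [Fintype Ω] (E : Finset Ω) (p : ℝ) (hE : (E.card : ℝ) ≤ p * Fintype.card Ω)
    (m t : ℕ) :
    ((univ.filter (fun ω : Fin m → Ω => t ≤ (univ.filter (fun i => ω i ∈ E)).card)).card : ℝ) ≤
      (m.choose t : ℝ) * p ^ t * (Fintype.card Ω : ℝ) ^ m := by
  have h1 : univ.filter (fun ω : Fin m → Ω => t ≤ (univ.filter (fun i => ω i ∈ E)).card) ⊆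
      (powersetCard t (univ : Finset (Fin m))).biUnion
        (fun T => Fintype.piFinset (fun i => if i ∈ T then E else univ)) := by
    intro ω hω
    obtain ⟨T, hT, hc⟩ := exists_subset_card_eq (mem_filter.1 hω).2
    refine mem_biUnion.2 ⟨T, mem_powersetCard.2 ⟨subset_univ _, hc⟩, Fintype.mem_piFinset.2 fun i => ?_⟩
    split_ifs with h
    · exact (mem_filter.1 (hT h)).2
    · exact mem_univ _
  have h2 : ∀ T ∈ powersetCard t (univ : Finset (Fin m)),
      ((Fintype.piFinset (fun i => if i ∈ T then E else univ)).card : ℝ) ≤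
        p ^ t * (Fintype.card Ω : ℝ) ^ m := by
    intro T hT
    have hc := (mem_powersetCard.1 hT).2
    rw [Fintype.card_piFinset]
    push_cast
    calc ∏ i : Fin m, ((if i ∈ T then E else univ).card : ℝ)
        ≤ ∏ i : Fin m, ((if i ∈ T then p else 1) * (Fintype.card Ω : ℝ)) := by
          apply prod_le_prod (fun i _ => by positivity)
          intro i _
          split_ifs
          · exact hE
          · simp
      _ = p ^ t * (Fintype.card Ω : ℝ) ^ m := by
          rw [prod_mul_distrib, prod_ite_mem, univ_inter, prod_const, hc]; simp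
  calc _ ≤ (((powersetCard t (univ : Finset (Fin m))).biUnion
        (fun T => Fintype.piFinset (fun i => if i ∈ T then E else univ))).card : ℝ) := by
        exact_mod_cast card_le_card h1
    _ ≤ ∑ T ∈ powersetCard t (univ : Finset (Fin m)),
        ((Fintype.piFinset (fun i => if i ∈ T then E else univ)).card : ℝ) := by
        exact_mod_cast card_biUnion_le
    _ ≤ ∑ T ∈ powersetCard t (univ : Finset (Fin m)), p ^ t * (Fintype.card Ω : ℝ) ^ m :=
        sum_le_sum h2
    _ = _ := by
        rw [sum_const, card_powersetCard, nsmul_eq_mul]; simp [mul_assoc]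

variable {k n : ℕ}

/-- clauses -/
abbrev Cl (k n : ℕ) : Type := (Fin k ↪ Fin n) × (Fin k → Bool)

/-- number of positive literals -/
def pos (s : Fin k → Bool) : ℕ := (univ.filter (fun j => s j = true)).card

/-- the rule: take the second clause if it has more positive literals -/
def pick (c : Cl k n × Cl k n) : Bool := decide (pos c.1.2 < pos c.2.2)

/-- the selected clause -/
def sel (c : Cl k n × Cl k n) : Cl k n := if pick c then c.2 else c.1

/-- the positions used -/
def posn (s : Fin k → Bool) : Finset (Fin k) :=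
  if pos s ≤ 1 then univ.filter (fun j => s j = false) else univ.filter (fun j => s j = true)

/-- the variables used -/
def edge (c : Cl k n) : Finset (Fin n) := (posn c.2).map c.1

theorem emb_count (W : Finset (Fin n)) (S : Finset (Fin k)) (hn : 0 < n) :
    ((univ.filter (fun e : Fin k ↪ Fin n => S.map e ⊆ W)).card : ℝ) ≤
      ((W.card : ℝ) / n) ^ S.card * (n : ℝ) ^ k := by
  have h1 : (univ.filter (fun e : Fin k ↪ Fin n => S.map e ⊆ W)).card ≤
      (Fintype.piFinset (fun j : Fin k => if j ∈ S then W else univ)).card := by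
    apply card_le_card_of_injOn (fun e : Fin k ↪ Fin n => (fun j => e j : Fin k → Fin n))
    · intro e he
      simp only [coe_filter, mem_univ, true_and, Set.mem_setOf_eq] at he
      refine mem_coe.2 (Fintype.mem_piFinset.2 fun j => ?_)
      split_ifs with h
      · exact he (mem_map_of_mem _ h)
      · exact mem_univ _
    · intro e _ e' _ h
      exact DFunLike.coe_injective h
  have hn' : (n : ℝ) ≠ 0 := by positivity
  calc _ ≤ ((Fintype.piFinset (fun j : Fin k => if j ∈ S then W else univ)).card : ℝ) := by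
        exact_mod_cast h1
    _ = ∏ j : Fin k, ((if j ∈ S then (W.card : ℝ) / n else 1) * n) := by
        rw [Fintype.card_piFinset]
        push_cast
        apply prod_congr rfl
        intro j _
        split_ifs
        · field_simp
        · simp
    _ = _ := by
        rw [prod_mul_distrib, prod_ite_mem, univ_inter, prod_const]; simp

theorem sum_pow_pos (y : ℝ) : ∑ s : Fin k → Bool, y ^ pos s = (1 + y) ^ k := by
  have h1 : ∀ s : Fin k → Bool, y ^ pos s = ∏ j, (if s j = true then y else 1) := by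
    intro s
    rw [prod_ite, prod_const, prod_const_one, mul_one]
    rfl
  simp_rw [h1]
  have := Finset.prod_univ_sum (fun _ : Fin k => (univ : Finset Bool))
    (fun _ b => if b = true then y else (1 : ℝ))
  rw [Fintype.piFinset_univ] at this
  rw [← this]
  simp [add_comm]

theorem pos_add (s : Fin k → Bool) : pos s + (univ.filter (fun j => s j = false)).card = k := by
  have := card_filter_add_card_filter_not (s := (univ : Finset (Fin k))) (fun j => s j = true)
  simpa [pos] using this

theorem size_bound (hk : 3 ≤ k) (x y : ℝ) (hx : 0 ≤ x) (hy : 0 < y) (hy1 : y ≤ 1) (hxy : x ≤ y ^ 2)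
    (s s' : Fin k → Bool) (h : pos s' ≤ pos s) :
    x ^ (posn s).card ≤ x ^ 2 / y ^ 4 * (y ^ pos s * y ^ pos s') := by
  have hy2 : y ^ 2 ≤ 1 := pow_le_one₀ hy.le hy1
  have hx1 : x ≤ 1 := hxy.trans hy2
  unfold posn
  split_ifs with h1
  · have h2 : 2 ≤ (univ.filter (fun j => s j = false)).card := by
      have := pos_add s
      omega
    have h3 : y ^ 4 ≤ y ^ pos s * y ^ pos s' := by
      rw [← pow_add]
      exact pow_le_pow_of_le_one hy.le hy1 (by omega)
    calc _ ≤ x ^ 2 := pow_le_pow_of_le_one hx hx1 h2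
      _ = x ^ 2 / y ^ 4 * y ^ 4 := by field_simp
      _ ≤ _ := by gcongr
  · change x ^ pos s ≤ _
    obtain ⟨d, hd⟩ : ∃ d, pos s = d + 2 := ⟨pos s - 2, by omega⟩
    have h3 : y ^ 4 * (y ^ 2) ^ d ≤ y ^ pos s * y ^ pos s' := by
      rw [← pow_mul, ← pow_add, ← pow_add]
      exact pow_le_pow_of_le_one hy.le hy1 (by omega)
    calc x ^ pos s = x ^ 2 * x ^ d := by rw [hd]; ring
      _ ≤ x ^ 2 * (y ^ 2) ^ d := by gcongr
      _ = x ^ 2 / y ^ 4 * (y ^ 4 * (y ^ 2) ^ d) := by field_simp
      _ ≤ _ := by gcongr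

theorem card_step (P : Cl k n × Cl k n → Prop) [DecidablePred P] :
    ((univ.filter P).card : ℝ) = ∑ s1 : Fin k → Bool, ∑ s2 : Fin k → Bool,
      ∑ e1 : Fin k ↪ Fin n, ∑ e2 : Fin k ↪ Fin n, if P ((e1, s1), (e2, s2)) then (1 : ℝ) else 0 := by
  rw [card_filter]
  push_cast
  simp only [Fintype.sum_prod_type]
  rw [sum_comm]
  apply sum_congr rfl
  intro s1 _
  calc ∑ e1 : Fin k ↪ Fin n, ∑ e2 : Fin k ↪ Fin n, ∑ s2 : Fin k → Bool,
        (if P ((e1, s1), (e2, s2)) then (1 : ℝ) else 0)
      = ∑ e1 : Fin k ↪ Fin n, ∑ s2 : Fin k → Bool, ∑ e2 : Fin k ↪ Fin n,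
        (if P ((e1, s1), (e2, s2)) then (1 : ℝ) else 0) := sum_congr rfl (fun _ _ => sum_comm)
    _ = _ := sum_comm

theorem card_Cl2 : (Fintype.card (Cl k n × Cl k n) : ℝ) =
    (Fintype.card (Fin k ↪ Fin n) : ℝ) ^ 2 * 4 ^ k := by
  simp only [Fintype.card_prod, Fintype.card_fun, Fintype.card_bool, Fintype.card_fin]
  push_cast
  rw [show (4 : ℝ) = 2 * 2 by norm_num, mul_pow]
  ring

/-- probability that the edge of one step lies in `W` -/
theorem step_W (hk : 3 ≤ k) (hn : 0 < n)
    (hD : (n : ℝ) ^ k ≤ 2 * Fintype.card (Fin k ↪ Fin n)) (y : ℝ) (hy : 0 < y) (hy1 : y ≤ 1)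
    (W : Finset (Fin n)) (hW : (W.card : ℝ) / n ≤ y ^ 2) :
    ((univ.filter (fun c : Cl k n × Cl k n => edge (sel c) ⊆ W)).card : ℝ) ≤
      (2 * ((W.card : ℝ) / n) ^ 2 / y ^ 4 * (1 + y) ^ (2 * k) / 4 ^ k) *
        Fintype.card (Cl k n × Cl k n) := by
  set x : ℝ := (W.card : ℝ) / n with hx
  set D : ℝ := (Fintype.card (Fin k ↪ Fin n) : ℝ) with hDdef
  have hx0 : 0 ≤ x := by positivity
  have hD0 : 0 ≤ D := by positivity
  rw [card_step, card_Cl2, ← hDdef]
  have key : ∀ s1 s2 : Fin k → Bool, (∑ e1 : Fin k ↪ Fin n, ∑ e2 : Fin k ↪ Fin n,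
      if edge (sel ((e1, s1), (e2, s2))) ⊆ W then (1 : ℝ) else 0) ≤
      D * (2 * D) * (x ^ 2 / y ^ 4) * (y ^ pos s1 * y ^ pos s2) := by
    intro s1 s2
    by_cases h : pos s1 < pos s2
    · have h1 : ∀ e1 e2 : Fin k ↪ Fin n, edge (sel ((e1, s1), (e2, s2))) = (posn s2).map e2 := by
        intro e1 e2; simp [sel, pick, h, edge]
      simp only [h1]
      rw [sum_const, nsmul_eq_mul, ← natCast_card_filter, card_univ]
      have h2 := emb_count W (posn s2) hn
      have h3 := size_bound hk x y hx0 hy hy1 hW s2 s1 h.le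
      calc D * _ ≤ D * (x ^ (posn s2).card * (n : ℝ) ^ k) := by gcongr
        _ ≤ D * ((x ^ 2 / y ^ 4 * (y ^ pos s2 * y ^ pos s1)) * (2 * D)) := by gcongr
        _ = _ := by ring
    · have h1 : ∀ e1 e2 : Fin k ↪ Fin n, edge (sel ((e1, s1), (e2, s2))) = (posn s1).map e1 := by
        intro e1 e2; simp [sel, pick, h, edge]
      simp only [h1]
      rw [sum_comm, sum_const, nsmul_eq_mul, ← natCast_card_filter, card_univ]
      have h2 := emb_count W (posn s1) hn
      have h3 := size_bound hk x y hx0 hy hy1 hW s1 s2 (not_lt.1 h)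
      calc D * _ ≤ D * (x ^ (posn s1).card * (n : ℝ) ^ k) := by gcongr
        _ ≤ D * ((x ^ 2 / y ^ 4 * (y ^ pos s1 * y ^ pos s2)) * (2 * D)) := by gcongr
        _ = _ := by ring
  calc _ ≤ ∑ s1 : Fin k → Bool, ∑ s2 : Fin k → Bool,
        D * (2 * D) * (x ^ 2 / y ^ 4) * (y ^ pos s1 * y ^ pos s2) :=
        sum_le_sum fun s1 _ => sum_le_sum fun s2 _ => key s1 s2
    _ = D * (2 * D) * (x ^ 2 / y ^ 4) * ((1 + y) ^ k * (1 + y) ^ k) := by
        rw [← sum_pow_pos, sum_mul_sum, mul_sum]
        apply sum_congr rfl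
        intro s1 _
        rw [mul_sum]
    _ = _ := by
        rw [two_mul k, pow_add]
        field_simp

theorem card_small : (univ.filter (fun s : Fin k → Bool => pos s ≤ 1)).card ≤ k + 1 := by
  have h1 : univ.filter (fun s : Fin k → Bool => pos s ≤ 1) ⊆
      (univ : Finset (Option (Fin k))).image (fun o j => decide (o = some j)) := by
    intro s hs
    have h2 := (mem_filter.1 hs).2
    unfold pos at h2
    by_cases h3 : ∃ j, s j = true
    · obtain ⟨j, hj⟩ := h3
      refine mem_image.2 ⟨some j, mem_univ _, ?_⟩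
      funext i
      by_cases h4 : s i = true
      · have := card_le_one.1 h2 i (by simpa using h4) j (by simpa using hj)
        simp [this, hj]
      · have : j ≠ i := by rintro rfl; exact h4 hj
        simp [this, h4]
    · push Not at h3
      refine mem_image.2 ⟨none, mem_univ _, ?_⟩
      funext i
      simp [h3 i]
  calc _ ≤ _ := card_le_card h1
    _ ≤ (univ : Finset (Option (Fin k))).card := card_image_le
    _ = k + 1 := by simp

/-- probability that the selected clause has at most one positive literal -/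
theorem step_N :
    ((univ.filter (fun c : Cl k n × Cl k n => pos (sel c).2 ≤ 1)).card : ℝ) ≤
      (((k : ℝ) + 1) ^ 2 / 4 ^ k) * Fintype.card (Cl k n × Cl k n) := by
  set D : ℝ := (Fintype.card (Fin k ↪ Fin n) : ℝ) with hDdef
  rw [card_step, card_Cl2, ← hDdef]
  have key : ∀ s1 s2 : Fin k → Bool, (∑ e1 : Fin k ↪ Fin n, ∑ e2 : Fin k ↪ Fin n,
      if pos (sel ((e1, s1), (e2, s2))).2 ≤ 1 then (1 : ℝ) else 0) =
      D ^ 2 * ((if pos s1 ≤ 1 then 1 else 0) * (if pos s2 ≤ 1 then 1 else 0)) := by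
    intro s1 s2
    have h1 : ∀ e1 e2 : Fin k ↪ Fin n, (pos (sel ((e1, s1), (e2, s2))).2 ≤ 1) ↔
        (pos s1 ≤ 1 ∧ pos s2 ≤ 1) := by
      intro e1 e2
      by_cases h : pos s1 < pos s2 <;> simp [sel, pick, h] <;> omega
    simp only [h1, sum_const, card_univ, nsmul_eq_mul]
    by_cases h2 : pos s1 ≤ 1 <;> by_cases h3 : pos s2 ≤ 1 <;> simp [h2, h3, hDdef, sq]
  simp only [key, ← mul_sum]
  rw [← sum_mul, ← natCast_card_filter]
  have h2 : ((univ.filter (fun s : Fin k → Bool => pos s ≤ 1)).card : ℝ) ≤ k + 1 := by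
    exact_mod_cast card_small
  calc _ ≤ D ^ 2 * (((k : ℝ) + 1) * (k + 1)) := by gcongr
    _ = _ := by field_simp

/-- deterministic part -/
theorem sat_of_hall {m : ℕ} (c : Fin m → Cl k n) (L : ℕ)
    (hN : (univ.filter (fun i => pos (c i).2 ≤ 1)).card * k ≤ L)
    (hH : ∀ W : Finset (Fin n), W.card ≤ L → (univ.filter (fun i => edge (c i) ⊆ W)).card ≤ W.card) :
    ∃ a : Fin n → Bool, ∀ i, ∃ j : Fin k, a ((c i).1 j) = (c i).2 j := by
  let U : Finset (Fin n) := (univ.filter (fun i => pos (c i).2 ≤ 1)).biUnion (fun i => edge (c i))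
  have hU : U.card ≤ L := by
    refine le_trans (card_biUnion_le_card_mul _ _ k ?_) hN
    intro i _
    rw [edge, card_map]
    simpa using card_le_univ (posn (c i).2)
  have hall := (Finset.all_card_le_biUnion_card_iff_exists_injective
    (fun i : {i // edge (c i) ⊆ U} => edge (c i))).1 (by
      intro S
      have h1 : S.biUnion (fun i => edge (c i)) ⊆ U := biUnion_subset.2 fun i _ => i.2
      refine le_trans ?_ (hH _ ((card_le_card h1).trans hU))
      apply card_le_card_of_injOn (fun i => i.1)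
      · intro i hi
        simp only [coe_filter, mem_univ, true_and, Set.mem_setOf_eq]
        exact subset_biUnion_of_mem (fun i : {i // edge (c i) ⊆ U} => edge (c i)) hi
      · intro i _ i' _ h
        exact Subtype.ext h)
  obtain ⟨f, hf, hfe⟩ := hall
  refine ⟨fun v => decide (¬ ∃ i, pos (c i.1).2 ≤ 1 ∧ f i = v), fun i => ?_⟩
  by_cases h1 : pos (c i).2 ≤ 1
  · have h2 : edge (c i) ⊆ U :=
      subset_biUnion_of_mem (fun i => edge (c i)) (mem_filter.2 ⟨mem_univ _, h1⟩)
    have h3 := hfe ⟨i, h2⟩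
    simp only [edge, posn, h1, if_true, mem_map, mem_filter, mem_univ, true_and] at h3
    obtain ⟨j, hj, hj2⟩ := h3
    refine ⟨j, ?_⟩
    rw [hj]
    simp only [decide_eq_false_iff_not, not_not]
    exact ⟨⟨i, h2⟩, h1, hj2.symm⟩
  · by_cases h2 : edge (c i) ⊆ U
    · have h3 := hfe ⟨i, h2⟩
      simp only [edge, posn, h1, if_false, mem_map, mem_filter, mem_univ, true_and] at h3
      obtain ⟨j, hj, hj2⟩ := h3
      refine ⟨j, ?_⟩
      rw [hj]
      simp only [decide_eq_true_eq]
      rintro ⟨i', hi', h4⟩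
      have h5 : i' = ⟨i, h2⟩ := hf (h4.trans hj2)
      rw [h5] at hi'
      exact h1 hi'
    · obtain ⟨v, hv, hvU⟩ := not_subset.1 h2
      simp only [edge, posn, h1, if_false, mem_map, mem_filter, mem_univ, true_and] at hv
      obtain ⟨j, hj, hj2⟩ := hv
      refine ⟨j, ?_⟩
      rw [hj, hj2]
      simp only [decide_eq_true_eq]
      rintro ⟨i', _, h4⟩
      exact hvU (h4 ▸ i'.2 (hfe i'))

/-- first moment bound for uniformly random formulas -/
theorem first_moment (m : ℕ) :
    ((univ.filter (fun F : Fin m → Cl k n =>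
      ∃ a : Fin n → Bool, ∀ i, ∃ j : Fin k, a ((F i).1 j) = (F i).2 j)).card : ℝ) ≤
      2 ^ n * (1 - 1 / 2 ^ k) ^ m * (Fintype.card (Cl k n) : ℝ) ^ m := by
  let S : (Fin n → Bool) → Finset (Cl k n) :=
    fun a => univ.filter (fun c => ∃ j : Fin k, a (c.1 j) = c.2 j)
  have hS : ∀ a, ((S a).card : ℝ) ≤ (1 - 1 / 2 ^ k) * Fintype.card (Cl k n) := by
    intro a
    have h1 : Fintype.card (Fin k ↪ Fin n) ≤ (S a)ᶜ.card := by
      rw [← card_univ]
      apply card_le_card_of_injOn (fun e => (e, fun j => !(a (e j))))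
      · intro e _
        simp [S]
      · intro e _ e' _ h
        exact congrArg Prod.fst h
    have h2 := card_add_card_compl (S a)
    have h3 : (Fintype.card (Cl k n) : ℝ) = Fintype.card (Fin k ↪ Fin n) * 2 ^ k := by
      simp only [Fintype.card_prod, Fintype.card_fun, Fintype.card_bool, Fintype.card_fin]
      push_cast; ring
    have h4 : ((S a).card : ℝ) + Fintype.card (Fin k ↪ Fin n) ≤ Fintype.card (Cl k n) := by
      exact_mod_cast (by omega : (S a).card + Fintype.card (Fin k ↪ Fin n) ≤ Fintype.card (Cl k n))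
    have h5 : (1 - 1 / 2 ^ k) * (Fintype.card (Cl k n) : ℝ) =
        Fintype.card (Cl k n) - Fintype.card (Fin k ↪ Fin n) := by
      rw [h3]; field_simp
    linarith
  have h1 : univ.filter (fun F : Fin m → Cl k n =>
      ∃ a : Fin n → Bool, ∀ i, ∃ j : Fin k, a ((F i).1 j) = (F i).2 j) ⊆
      (univ : Finset (Fin n → Bool)).biUnion (fun a => Fintype.piFinset (fun _ => S a)) := by
    intro F hF
    obtain ⟨a, ha⟩ := (mem_filter.1 hF).2
    exact mem_biUnion.2 ⟨a, mem_univ _, Fintype.mem_piFinset.2 fun i =>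
      mem_filter.2 ⟨mem_univ _, ha i⟩⟩
  calc _ ≤ (((univ : Finset (Fin n → Bool)).biUnion
        (fun a => Fintype.piFinset (fun _ : Fin m => S a))).card : ℝ) := by
        exact_mod_cast card_le_card h1
    _ ≤ ∑ a : Fin n → Bool, ((Fintype.piFinset (fun _ : Fin m => S a)).card : ℝ) := by
        exact_mod_cast card_biUnion_le
    _ ≤ ∑ a : Fin n → Bool, ((1 - 1 / 2 ^ k) * (Fintype.card (Cl k n) : ℝ)) ^ m := by
        apply sum_le_sum
        intro a _
        rw [Fintype.card_piFinset, prod_const, card_univ, Fintype.card_fin]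
        push_cast
        exact pow_le_pow_left₀ (by positivity) (hS a) m
    _ = _ := by
        rw [sum_const, nsmul_eq_mul, mul_pow]; simp [mul_assoc]

end Pool.Agent.H106Z.Sat
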