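import Mathlib
import Pool.Agent.H106Z.Sat1

set_option autoImplicit false

/-! Two-choice random k-SAT: estimates. -/

namespace Pool.Agent.H106Z.Sat

open Finset Classical

theorem exp6 : Real.exp 6 ≤ 404 := by
  have h := Real.exp_one_lt_d9
  have h2 : Real.exp 6 = Real.exp 1 ^ 6 := by rw [← Real.exp_nat_mul]; norm_num
  rw [h2]
  calc Real.exp 1 ^ 6 ≤ 2.7182818286 ^ 6 := by gcongr
    _ ≤ 404 := by norm_num

theorem num1 (k : ℕ) (hk : 26 ≤ k) : 404 * k ^ 4 ≤ 4 * 2 ^ k := by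
  induction k, hk using Nat.le_induction with
  | base => norm_num
  | succ k hk ih =>
    have : (k + 1) ^ 4 ≤ 2 * k ^ 4 := by
      have h1 : 26 * k ^ 3 ≤ k ^ 4 := by rw [pow_succ k 3, mul_comm]; gcongr
      have h2 : 26 * k ^ 2 ≤ k ^ 3 := by rw [pow_succ k 2, mul_comm]; gcongr
      have h3 : 26 * k ≤ k ^ 2 := by rw [sq]; gcongr
      have h4 : (k + 1) ^ 4 = k ^ 4 + 4 * k ^ 3 + 6 * k ^ 2 + 4 * k + 1 := by ring
      omega
    rw [pow_succ 2 k]
    omega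

theorem num2 (k : ℕ) (hk : 26 ≤ k) : 3 * (k + 1) ^ 5 ≤ 2 * 2 ^ k := by
  induction k, hk using Nat.le_induction with
  | base => norm_num
  | succ k hk ih =>
    have : (k + 1 + 1) ^ 5 ≤ 2 * (k + 1) ^ 5 := by
      set j := k + 1
      have hj : 26 ≤ j := by omega
      have h0 : 26 * j ^ 4 ≤ j ^ 5 := by rw [pow_succ j 4, mul_comm]; gcongr
      have h1 : 26 * j ^ 3 ≤ j ^ 4 := by rw [pow_succ j 3, mul_comm]; gcongr
      have h2 : 26 * j ^ 2 ≤ j ^ 3 := by rw [pow_succ j 2, mul_comm]; gcongr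
      have h3 : 26 * j ≤ j ^ 2 := by rw [sq]; gcongr
      have h4 : (j + 1) ^ 5 = j ^ 5 + 5 * j ^ 4 + 10 * j ^ 3 + 10 * j ^ 2 + 5 * j + 1 := by ring
      omega
    rw [pow_succ 2 k]
    omega

theorem sum_geo (N : ℕ) : ∑ w ∈ range N, (w : ℝ) * (1 / 2) ^ w ≤ 2 := by
  have : ∀ N : ℕ, ∑ w ∈ range N, (w : ℝ) * (1 / 2) ^ w + (2 * N + 2) * (1 / 2) ^ N = 2 := by
    intro N
    induction N with
    | zero => simp
    | succ N ih => rw [sum_range_succ, pow_succ]; push_cast; linarith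
  have h := this N
  have : (0 : ℝ) ≤ (2 * N + 2) * (1 / 2) ^ N := by positivity
  linarith

/-- the constant in the Hall union bound -/
theorem gamma_le (k : ℕ) (hk : 26 ≤ k) :
    (2 / (2 / (k : ℝ)) ^ 4 * (1 + 2 / (k : ℝ)) ^ (2 * k) / 2 ^ k) * Real.exp 2 ≤ 1 / 2 := by
  have hk0 : (0 : ℝ) < k := by exact_mod_cast (by omega : 0 < k)
  have h1 : (1 + 2 / (k : ℝ)) ^ (2 * k) ≤ Real.exp 4 := by
    calc (1 + 2 / (k : ℝ)) ^ (2 * k) ≤ (Real.exp (2 / k)) ^ (2 * k) := by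
          gcongr
          linarith [Real.add_one_le_exp (2 / (k : ℝ))]
      _ = Real.exp 4 := by
          rw [← Real.exp_nat_mul]; congr 1; push_cast; field_simp; norm_num
  have h2 : (404 : ℝ) * k ^ 4 ≤ 4 * 2 ^ k := by exact_mod_cast num1 k hk
  have h3 : Real.exp 4 * Real.exp 2 ≤ 404 := by
    rw [← Real.exp_add]; norm_num; exact exp6
  calc _ ≤ (2 / (2 / (k : ℝ)) ^ 4 * Real.exp 4 / 2 ^ k) * Real.exp 2 := by gcongr
    _ = (k : ℝ) ^ 4 * (Real.exp 4 * Real.exp 2) / (8 * 2 ^ k) := by field_simp; norm_num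
    _ ≤ (k : ℝ) ^ 4 * 404 / (8 * 2 ^ k) := by gcongr
    _ ≤ 1 / 2 := by
        rw [div_le_div_iff₀ (by positivity) (by norm_num)]; linarith

theorem term_le (n m w : ℕ) (hn : 0 < n) (A γ : ℝ) (hA : 0 ≤ A) (hγ : 0 ≤ γ) (hm : m * A ≤ γ * n)
    (hγ2 : γ * Real.exp 2 ≤ 1 / 2) :
    (n.choose w : ℝ) * ((m.choose (w + 1) : ℝ) * (A * ((w : ℝ) / n) ^ 2) ^ (w + 1)) ≤
      (w : ℝ) * (1 / 2) ^ w / n := by
  have hn' : (0 : ℝ) < n := by exact_mod_cast hn
  have h1 := Nat.choose_le_pow_div (α := ℝ) w n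
  have h2 := Nat.choose_le_pow_div (α := ℝ) (w + 1) m
  have h3 := Real.pow_div_factorial_le_exp (w : ℝ) (by positivity) w
  have h4 := Real.pow_div_factorial_le_exp (w : ℝ) (by positivity) (w + 1)
  have hγ1 : γ ≤ 1 := by
    have : 1 ≤ Real.exp 2 := Real.one_le_exp (by norm_num)
    nlinarith
  calc _ ≤ ((n : ℝ) ^ w / w.factorial) * (((m : ℝ) ^ (w + 1) / (w + 1).factorial) *
        (A * ((w : ℝ) / n) ^ 2) ^ (w + 1)) := by gcongr
    _ = ((n : ℝ) ^ w / w.factorial) * ((m * A) ^ (w + 1) / (w + 1).factorial *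
        (((w : ℝ) / n) ^ 2) ^ (w + 1)) := by rw [mul_pow, mul_pow]; ring
    _ ≤ ((n : ℝ) ^ w / w.factorial) * ((γ * n) ^ (w + 1) / (w + 1).factorial *
        (((w : ℝ) / n) ^ 2) ^ (w + 1)) := by gcongr
    _ = γ ^ (w + 1) * ((w : ℝ) ^ w / w.factorial) * ((w : ℝ) ^ (w + 1) / (w + 1).factorial) *
        w / n := by
        rw [mul_pow, ← pow_mul, div_pow]
        field_simp
        ring
    _ ≤ γ ^ (w + 1) * Real.exp w * Real.exp w * w / n := by gcongr
    _ = γ * (γ * Real.exp 2) ^ w * w / n := by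
        rw [mul_pow, ← Real.exp_nat_mul, show (w : ℝ) * 2 = w + w by ring, Real.exp_add]; ring
    _ ≤ 1 * (1 / 2) ^ w * w / n := by gcongr
    _ = _ := by ring

variable {k n : ℕ}

/-- probability that Hall's condition fails for a small set -/
theorem bad_hall (hk : 26 ≤ k) (hn : 0 < n)
    (hD : (n : ℝ) ^ k ≤ 2 * Fintype.card (Fin k ↪ Fin n)) (m : ℕ) (hm : (m : ℝ) ≤ 2 ^ k * n) :
    ((univ.filter (fun ω : Fin m → Cl k n × Cl k n => ∃ W : Finset (Fin n),
      (W.card : ℝ) / n ≤ (2 / k) ^ 2 ∧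
      W.card + 1 ≤ (univ.filter (fun i => edge (sel (ω i)) ⊆ W)).card)).card : ℝ) ≤
      2 / n * (Fintype.card (Cl k n × Cl k n) : ℝ) ^ m := by
  have hk0 : (0 : ℝ) < k := by exact_mod_cast (by omega : 0 < k)
  have hk1 : (26 : ℝ) ≤ k := by exact_mod_cast hk
  have hn' : (0 : ℝ) < n := by exact_mod_cast hn
  set y : ℝ := 2 / k with hy
  have hy0 : 0 < y := by positivity
  have hy1 : y ≤ 1 := by rw [hy, div_le_one hk0]; linarith
  set A : ℝ := 2 / y ^ 4 * (1 + y) ^ (2 * k) / 4 ^ k with hA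
  set γ : ℝ := 2 / y ^ 4 * (1 + y) ^ (2 * k) / 2 ^ k with hγ
  set T : ℝ := (Fintype.card (Cl k n × Cl k n) : ℝ) ^ m with hT
  have hT0 : 0 ≤ T := by positivity
  have hmA : m * A ≤ γ * n := by
    calc m * A ≤ 2 ^ k * n * A := by gcongr
      _ = γ * n := by
          rw [hA, hγ, show (4 : ℝ) = 2 * 2 by norm_num, mul_pow]; field_simp
  let B : Finset (Fin n) → Finset (Fin m → Cl k n × Cl k n) := fun W =>
    univ.filter (fun ω => (W.card : ℝ) / n ≤ y ^ 2 ∧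
      W.card + 1 ≤ (univ.filter (fun i => edge (sel (ω i)) ⊆ W)).card)
  have hB : ∀ W, ((B W).card : ℝ) ≤
      (m.choose (W.card + 1) : ℝ) * (A * ((W.card : ℝ) / n) ^ 2) ^ (W.card + 1) * T := by
    intro W
    by_cases hW : (W.card : ℝ) / n ≤ y ^ 2
    · have h1 := step_W (by omega) hn hD y hy0 hy1 W hW
      have h2 := many_le _ (A * ((W.card : ℝ) / n) ^ 2) (h1.trans (le_of_eq (by rw [hA]; ring)))
        m (W.card + 1)
      refine le_trans (le_of_eq ?_) h2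
      congr 2
      ext ω
      simp [B, hW]
    · have : B W = ∅ := by
        ext ω; simp [B, hW]
      rw [this]
      simp only [card_empty, Nat.cast_zero]
      positivity
  have h1 : univ.filter (fun ω : Fin m → Cl k n × Cl k n => ∃ W : Finset (Fin n),
      (W.card : ℝ) / n ≤ y ^ 2 ∧
      W.card + 1 ≤ (univ.filter (fun i => edge (sel (ω i)) ⊆ W)).card) ⊆
      (univ : Finset (Finset (Fin n))).biUnion B := by
    intro ω hω
    obtain ⟨W, hW⟩ := (mem_filter.1 hω).2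
    exact mem_biUnion.2 ⟨W, mem_univ _, mem_filter.2 ⟨mem_univ _, hW⟩⟩
  calc _ ≤ (((univ : Finset (Finset (Fin n))).biUnion B).card : ℝ) := by
        exact_mod_cast card_le_card h1
    _ ≤ ∑ W : Finset (Fin n), ((B W).card : ℝ) := by exact_mod_cast card_biUnion_le
    _ ≤ ∑ W : Finset (Fin n),
        (m.choose (W.card + 1) : ℝ) * (A * ((W.card : ℝ) / n) ^ 2) ^ (W.card + 1) * T :=
        sum_le_sum fun W _ => hB W
    _ = ∑ w ∈ range (n + 1), (n.choose w : ℝ) *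
        ((m.choose (w + 1) : ℝ) * (A * ((w : ℝ) / n) ^ 2) ^ (w + 1) * T) := by
        have := sum_powerset_apply_card
          (fun w : ℕ => (m.choose (w + 1) : ℝ) * (A * ((w : ℝ) / n) ^ 2) ^ (w + 1) * T)
          (x := (univ : Finset (Fin n)))
        rw [powerset_univ] at this
        rw [this]
        simp
    _ ≤ ∑ w ∈ range (n + 1), ((w : ℝ) * (1 / 2) ^ w / n) * T := by
        apply sum_le_sum
        intro w _
        rw [← mul_assoc]
        gcongr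
        exact term_le n m w hn A γ (by positivity) (by positivity) hmA (gamma_le k hk)
    _ = (∑ w ∈ range (n + 1), (w : ℝ) * (1 / 2) ^ w) / n * T := by
        rw [← sum_mul, sum_div]
    _ ≤ 2 / n * T := by gcongr; exact sum_geo _

/-- probability of too many steps without two positive literals -/
theorem bad_N (hk : 26 ≤ k) (hn : 0 < n) (m : ℕ) (hm : (m : ℝ) ≤ 2 ^ k * n) :
    ((univ.filter (fun ω : Fin m → Cl k n × Cl k n => 4 * n / k ^ 3 + 1 ≤
      (univ.filter (fun i => pos (sel (ω i)).2 ≤ 1)).card)).card : ℝ) ≤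
      (k : ℝ) ^ 3 / n * (Fintype.card (Cl k n × Cl k n) : ℝ) ^ m := by
  have hk0 : (0 : ℝ) < k := by exact_mod_cast (by omega : 0 < k)
  have hn' : (0 : ℝ) < n := by exact_mod_cast hn
  set t : ℕ := 4 * n / k ^ 3 + 1 with ht
  have ht1 : (4 * n : ℝ) / k ^ 3 ≤ t := by
    rw [div_le_iff₀ (by positivity)]
    have := Nat.lt_div_mul_add (a := 4 * n) (b := k ^ 3) (by positivity)
    have h2 : 4 * n ≤ t * k ^ 3 := by rw [ht, add_mul]; omega
    exact_mod_cast h2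
  have ht0 : (0 : ℝ) < t := by positivity
  have h2 := many_le _ _ (step_N (k := k) (n := n)) m t
  refine le_trans (le_of_eq ?_) (h2.trans ?_)
  · congr 2
    ext ω
    simp
  gcongr
  set q : ℝ := ((k : ℝ) + 1) ^ 2 / 4 ^ k with hq
  have h3 := Nat.choose_le_pow_div (α := ℝ) t m
  have h4 := Real.pow_div_factorial_le_exp (t : ℝ) (by positivity) t
  have h5 : (3 : ℝ) * (k + 1) ^ 5 ≤ 2 * 2 ^ k := by exact_mod_cast num2 k hk
  have h6 : m * q * Real.exp 1 ≤ t / 2 := by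
    have h7 := Real.exp_one_lt_three.le
    calc m * q * Real.exp 1 ≤ 2 ^ k * n * q * 3 := by gcongr
      _ = (3 * (k + 1) ^ 2 * k ^ 3) / (2 * 2 ^ k) * ((4 * n : ℝ) / k ^ 3) / 2 := by
          rw [hq, show (4 : ℝ) = 2 * 2 by norm_num, mul_pow]; field_simp
      _ ≤ 1 * t / 2 := by
          gcongr
          rw [div_le_one (by positivity)]
          calc (3 : ℝ) * ((k : ℝ) + 1) ^ 2 * (k : ℝ) ^ 3 ≤ 3 * ((k : ℝ) + 1) ^ 2 * ((k : ℝ) + 1) ^ 3 := by
                gcongr; linarith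
            _ = 3 * ((k : ℝ) + 1) ^ 5 := by ring
            _ ≤ _ := h5
      _ = t / 2 := by ring
  have h8 : (t : ℝ) ≤ 2 ^ t := by exact_mod_cast (Nat.lt_two_pow_self (n := t)).le
  calc (m.choose t : ℝ) * q ^ t ≤ ((m : ℝ) ^ t / t.factorial) * q ^ t := by gcongr
    _ = (m * q / t) ^ t * ((t : ℝ) ^ t / t.factorial) := by
        rw [div_pow (m * q), mul_pow]; field_simp
    _ ≤ (m * q / t) ^ t * Real.exp t := by gcongr
    _ = (m * q * Real.exp 1 / t) ^ t := by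
        rw [show m * q * Real.exp 1 / t = m * q / t * Real.exp 1 by ring, mul_pow _ (Real.exp 1),
          ← Real.exp_nat_mul, mul_one]
    _ ≤ (1 / 2) ^ t := by
        apply pow_le_pow_left₀ (by positivity)
        rw [div_le_iff₀ ht0]; linarith
    _ = 1 / 2 ^ t := by rw [div_pow, one_pow]
    _ ≤ 1 / t := by gcongr
    _ ≤ (k : ℝ) ^ 3 / n := by
        rw [div_le_div_iff₀ ht0 hn']
        rw [div_le_iff₀ (by positivity)] at ht1
        nlinarith

theorem good_ge (hk : 26 ≤ k) (hn : 0 < n)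
    (hD : (n : ℝ) ^ k ≤ 2 * Fintype.card (Fin k ↪ Fin n)) (m : ℕ) (hm : (m : ℝ) ≤ 2 ^ k * n) :
    (1 - (2 + (k : ℝ) ^ 3) / n) * (Fintype.card (Cl k n × Cl k n) : ℝ) ^ m ≤
    ((univ.filter (fun ω : Fin m → Cl k n × Cl k n => ∃ a : Fin n → Bool, ∀ i, ∃ j : Fin k,
      a ((sel (ω i)).1 j) = (sel (ω i)).2 j)).card : ℝ) := by
  have h1 := bad_hall hk hn hD m hm
  have h2 := bad_N hk hn m hm
  set G := univ.filter (fun ω : Fin m → Cl k n × Cl k n => ∃ a : Fin n → Bool, ∀ i, ∃ j : Fin k,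
      a ((sel (ω i)).1 j) = (sel (ω i)).2 j)
  set B1 := univ.filter (fun ω : Fin m → Cl k n × Cl k n => ∃ W : Finset (Fin n),
      (W.card : ℝ) / n ≤ (2 / k) ^ 2 ∧
      W.card + 1 ≤ (univ.filter (fun i => edge (sel (ω i)) ⊆ W)).card) with hB1
  set B2 := univ.filter (fun ω : Fin m → Cl k n × Cl k n => 4 * n / k ^ 3 + 1 ≤
      (univ.filter (fun i => pos (sel (ω i)).2 ≤ 1)).card) with hB2
  have hk0 : (0 : ℝ) < k := by exact_mod_cast (by omega : 0 < k)
  have hn' : (0 : ℝ) < n := by exact_mod_cast hn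
  have h3 : (univ : Finset (Fin m → Cl k n × Cl k n)) ⊆ G ∪ (B1 ∪ B2) := by
    intro ω _
    by_cases hb1 : ω ∈ B1
    · exact mem_union_right _ (mem_union_left _ hb1)
    by_cases hb2 : ω ∈ B2
    · exact mem_union_right _ (mem_union_right _ hb2)
    refine mem_union_left _ (mem_filter.2 ⟨mem_univ _, ?_⟩)
    simp only [hB1, hB2, mem_filter, mem_univ, true_and, not_exists, not_and, not_le] at hb1 hb2
    refine sat_of_hall (fun i => sel (ω i)) (4 * n / k ^ 3 * k)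
      (Nat.mul_le_mul_right _ (Nat.lt_succ_iff.1 hb2)) (fun W hW => Nat.lt_succ_iff.1 (hb1 W ?_))
    rw [div_le_iff₀ hn']
    have h4 : W.card * k ^ 2 ≤ 4 * n := by
      calc W.card * k ^ 2 ≤ 4 * n / k ^ 3 * k * k ^ 2 := by gcongr
        _ = 4 * n / k ^ 3 * k ^ 3 := by ring
        _ ≤ 4 * n := Nat.div_mul_le_self _ _
    have h5 : (W.card : ℝ) * k ^ 2 ≤ 4 * n := by exact_mod_cast h4
    rw [div_pow, div_mul_eq_mul_div, le_div_iff₀ (by positivity)]
    linarith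
  have h4 := card_le_card h3
  have h5 := card_union_le G (B1 ∪ B2)
  have h6 := card_union_le B1 B2
  rw [card_univ, Fintype.card_fun, Fintype.card_fin] at h4
  have h7 : (Fintype.card (Cl k n × Cl k n) : ℝ) ^ m ≤ G.card + (B1.card + B2.card) := by
    exact_mod_cast (by omega : Fintype.card (Cl k n × Cl k n) ^ m ≤ G.card + (B1.card + B2.card))
  have h8 : (1 - (2 + (k : ℝ) ^ 3) / n) * (Fintype.card (Cl k n × Cl k n) : ℝ) ^ m =
      (Fintype.card (Cl k n × Cl k n) : ℝ) ^ m - 2 / n * (Fintype.card (Cl k n × Cl k n) : ℝ) ^ m -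
      (k : ℝ) ^ 3 / n * (Fintype.card (Cl k n × Cl k n) : ℝ) ^ m := by ring
  linarith

theorem ev_D (k : ℕ) : ∀ᶠ n : ℕ in Filter.atTop,
    (n : ℝ) ^ k ≤ 2 * Fintype.card (Fin k ↪ Fin n) := by
  have h1 : Filter.Tendsto (fun n : ℕ => (1 - (k : ℝ) / n) ^ k) Filter.atTop (nhds ((1 - 0) ^ k)) :=
    (tendsto_const_nhds.sub (tendsto_const_div_atTop_nhds_zero_nat (k : ℝ))).pow k
  have h2 := h1.eventually (lt_mem_nhds (show (1 / 2 : ℝ) < (1 - 0) ^ k by norm_num))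
  filter_upwards [h2, Filter.eventually_ge_atTop (k + 1)] with n hn hkn
  have hn' : (0 : ℝ) < n := by exact_mod_cast (by omega : 0 < n)
  rw [Fintype.card_embedding_eq, Fintype.card_fin, Fintype.card_fin]
  have h3 : (n - k) ^ k ≤ n.descFactorial k :=
    le_trans (Nat.pow_le_pow_left (by omega) k) (Nat.pow_sub_le_descFactorial n k)
  have h4 : ((n : ℝ) - k) ^ k ≤ n.descFactorial k := by
    rw [← Nat.cast_sub (by omega)]; exact_mod_cast h3
  have h5 : ((n : ℝ) - k) ^ k = (1 - (k : ℝ) / n) ^ k * n ^ k := by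
    rw [← mul_pow]; congr 1; field_simp
  have h6 : (0 : ℝ) < n ^ k := by positivity
  nlinarith

theorem theta_le (hk : 26 ≤ k) (hn : 0 < n) (m : ℕ) (hm : (2 ^ k - 2) * n ≤ m) :
    (2 : ℝ) ^ n * (1 - 1 / 2 ^ k) ^ m ≤ 9 / 10 := by
  have h0 : (20 : ℕ) ≤ 2 ^ k :=
    le_trans (by norm_num) (Nat.pow_le_pow_right (by norm_num) hk)
  have h0' : (20 : ℝ) ≤ 2 ^ k := by exact_mod_cast h0
  have h1 : (0 : ℝ) ≤ 1 - 1 / 2 ^ k := by
    rw [sub_nonneg, div_le_one (by positivity)]; linarith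
  have h2 : (1 : ℝ) - 1 / 2 ^ k ≤ 1 := by
    have : (0 : ℝ) ≤ 1 / 2 ^ k := by positivity
    linarith
  have h3 : ((1 : ℝ) - 1 / 2 ^ k) ^ (2 ^ k - 2) ≤ 9 / 20 := by
    calc ((1 : ℝ) - 1 / 2 ^ k) ^ (2 ^ k - 2) ≤ (Real.exp (-(1 / 2 ^ k))) ^ (2 ^ k - 2) := by
          gcongr
          linarith [Real.add_one_le_exp (-(1 / (2 : ℝ) ^ k))]
      _ = Real.exp (-(1 - 2 / 2 ^ k)) := by
          rw [← Real.exp_nat_mul, Nat.cast_sub (by omega)]
          congr 1; push_cast; field_simp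
      _ ≤ Real.exp (-(9 / 10)) := by
          gcongr
          have : (2 : ℝ) / 2 ^ k ≤ 1 / 10 := by
            rw [div_le_div_iff₀ (by positivity) (by norm_num)]; linarith
          linarith
      _ ≤ 9 / 20 := by
          rw [Real.exp_neg, inv_le_comm₀ (Real.exp_pos _) (by norm_num)]
          have := Real.quadratic_le_exp_of_nonneg (show (0 : ℝ) ≤ 9 / 10 by norm_num)
          linarith
  calc (2 : ℝ) ^ n * (1 - 1 / 2 ^ k) ^ m ≤ 2 ^ n * (1 - 1 / 2 ^ k) ^ ((2 ^ k - 2) * n) := by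
        gcongr 2 ^ n * ?_
        exact pow_le_pow_of_le_one h1 h2 hm
    _ = (2 * (1 - 1 / 2 ^ k) ^ (2 ^ k - 2)) ^ n := by rw [mul_pow, pow_mul]
    _ ≤ (9 / 10) ^ n := by gcongr; linarith
    _ ≤ (9 / 10) ^ 1 := pow_le_pow_of_le_one (by norm_num) (by norm_num) hn
    _ = 9 / 10 := pow_one _

end Pool.Agent.H106Z.Sat
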