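import Mathlib

set_option autoImplicit false

namespace H106Uni

open scoped commutatorElement

/-- maps (p,q) ↦ (k p + u, k q + y p² + z p + w) of the plane over ZMod 7 -/
@[ext] structure H where
  k : (ZMod 7)ˣ
  u : ZMod 7
  y : ZMod 7
  z : ZMod 7
  w : ZMod 7
  deriving DecidableEq

instance : Fact (Nat.Prime 7) := ⟨by norm_num⟩

instance : Mul H := ⟨fun F G => ⟨F.k * G.k, F.k * G.u + F.u, F.k * G.y + F.y * G.k ^ 2,
  F.k * G.z + 2 * F.y * G.k * G.u + F.z * G.k, F.k * G.w + F.y * G.u ^ 2 + F.z * G.u + F.w⟩⟩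
instance : One H := ⟨⟨1, 0, 0, 0, 0⟩⟩
instance : Inv H := ⟨fun F => ⟨F.k⁻¹, -(F.k⁻¹ : (ZMod 7)ˣ) * F.u, -((F.k⁻¹ : (ZMod 7)ˣ) : ZMod 7) ^ 3 * F.y,
  2 * ((F.k⁻¹ : (ZMod 7)ˣ) : ZMod 7) ^ 3 * F.y * F.u - ((F.k⁻¹ : (ZMod 7)ˣ) : ZMod 7) ^ 2 * F.z,
  -((F.k⁻¹ : (ZMod 7)ˣ) : ZMod 7) ^ 3 * F.y * F.u ^ 2 + ((F.k⁻¹ : (ZMod 7)ˣ) : ZMod 7) ^ 2 * F.z * F.u
    - ((F.k⁻¹ : (ZMod 7)ˣ) : ZMod 7) * F.w⟩⟩

@[simp] lemma mul_k (F G : H) : (F * G).k = F.k * G.k := rfl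
@[simp] lemma mul_u (F G : H) : (F * G).u = F.k * G.u + F.u := rfl
@[simp] lemma mul_y (F G : H) : (F * G).y = F.k * G.y + F.y * G.k ^ 2 := rfl
@[simp] lemma mul_z (F G : H) : (F * G).z = F.k * G.z + 2 * F.y * G.k * G.u + F.z * G.k := rfl
@[simp] lemma mul_w (F G : H) : (F * G).w = F.k * G.w + F.y * G.u ^ 2 + F.z * G.u + F.w := rfl
@[simp] lemma one_k : (1 : H).k = 1 := rfl
@[simp] lemma one_u : (1 : H).u = 0 := rfl
@[simp] lemma one_y : (1 : H).y = 0 := rfl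
@[simp] lemma one_z : (1 : H).z = 0 := rfl
@[simp] lemma one_w : (1 : H).w = 0 := rfl
@[simp] lemma inv_k (F : H) : (F⁻¹).k = F.k⁻¹ := rfl
@[simp] lemma inv_u (F : H) : (F⁻¹).u = -(F.k⁻¹ : (ZMod 7)ˣ) * F.u := rfl
@[simp] lemma inv_y (F : H) : (F⁻¹).y = -((F.k⁻¹ : (ZMod 7)ˣ) : ZMod 7) ^ 3 * F.y := rfl
@[simp] lemma inv_z (F : H) : (F⁻¹).z = 2 * ((F.k⁻¹ : (ZMod 7)ˣ) : ZMod 7) ^ 3 * F.y * F.u
    - ((F.k⁻¹ : (ZMod 7)ˣ) : ZMod 7) ^ 2 * F.z := rfl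
@[simp] lemma inv_w (F : H) : (F⁻¹).w = -((F.k⁻¹ : (ZMod 7)ˣ) : ZMod 7) ^ 3 * F.y * F.u ^ 2
    + ((F.k⁻¹ : (ZMod 7)ˣ) : ZMod 7) ^ 2 * F.z * F.u - ((F.k⁻¹ : (ZMod 7)ˣ) : ZMod 7) * F.w := rfl

instance : Group H := Group.ofLeftAxioms
  (fun a b c => by ext <;> simp <;> ring)
  (fun a => by ext <;> simp)
  (fun a => by
    have hk : ((a.k⁻¹ : (ZMod 7)ˣ) : ZMod 7) * (a.k : ZMod 7) = 1 := Units.inv_mul _
    apply H.ext
    · exact inv_mul_cancel _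
    · rw [mul_u, inv_u, inv_k, one_u]; ring
    · rw [mul_y, inv_y, inv_k, one_y]
      generalize ((a.k⁻¹ : (ZMod 7)ˣ) : ZMod 7) = m at *
      linear_combination (-(m * a.y) * (m * a.k + 1)) * hk
    · rw [mul_z, inv_z, inv_y, inv_k, one_z]
      generalize ((a.k⁻¹ : (ZMod 7)ˣ) : ZMod 7) = m at *
      linear_combination (-(m * a.z)) * hk
    · rw [mul_w, inv_w, inv_z, inv_y, inv_k, one_w]
      generalize ((a.k⁻¹ : (ZMod 7)ˣ) : ZMod 7) = m at *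
      ring)

def S1 : Subgroup H where
  carrier := {g | g.k = 1}
  mul_mem' := by intro a b ha hb; simp only [Set.mem_setOf_eq] at *; simp [ha, hb]
  one_mem' := rfl
  inv_mem' := by intro a ha; simp only [Set.mem_setOf_eq] at *; simp [ha]

def S2 : Subgroup H where
  carrier := {g | g.k = 1 ∧ g.u = 0}
  mul_mem' := by
    intro a b ha hb; simp only [Set.mem_setOf_eq] at *; simp [ha.1, hb.1, ha.2, hb.2]
  one_mem' := ⟨rfl, rfl⟩
  inv_mem' := by intro a ha; simp only [Set.mem_setOf_eq] at *; simp [ha.1, ha.2]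

lemma c1 : ⁅(⊤ : Subgroup H), (⊤ : Subgroup H)⁆ ≤ S1 := by
  rw [Subgroup.commutator_le]
  intro a _ b _
  show (⁅a, b⁆ : H).k = 1
  rw [commutatorElement_def]
  simp [mul_comm a.k b.k]

lemma c2 : ⁅S1, S1⁆ ≤ S2 := by
  rw [Subgroup.commutator_le]
  intro a ha b hb
  have ha' : a.k = 1 := ha
  have hb' : b.k = 1 := hb
  show (⁅a, b⁆ : H).k = 1 ∧ (⁅a, b⁆ : H).u = 0
  rw [commutatorElement_def]
  constructor
  · simp [ha', hb']
  · simp [ha', hb']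

lemma c3 : ⁅S2, S2⁆ ≤ ⊥ := by
  rw [Subgroup.commutator_le]
  intro a ha b hb
  have ha1 : a.k = 1 := ha.1
  have hb1 : b.k = 1 := hb.1
  have ha2 : a.u = 0 := ha.2
  have hb2 : b.u = 0 := hb.2
  rw [Subgroup.mem_bot, commutatorElement_def]
  ext <;> simp [ha1, hb1, ha2, hb2] <;> ring

theorem solv : IsSolvable H := by
  refine ⟨⟨3, ?_⟩⟩
  have h1 : derivedSeries H 1 ≤ S1 := c1
  have h2 : derivedSeries H 2 ≤ S2 := (Subgroup.commutator_mono h1 h1).trans c2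
  have h3 : derivedSeries H 3 ≤ ⊥ := (Subgroup.commutator_mono h2 h2).trans c3
  exact le_bot_iff.mp h3

def u3 : (ZMod 7)ˣ := ⟨3, 5, by decide, by decide⟩

def X : H := ⟨1, 1, 3, 2, 0⟩
def C : H := ⟨1, 0, 0, 0, 1⟩
def A : H := ⟨u3, 0, 0, 0, 0⟩

section gen
variable {G : Type*} [Group G] {c a : G}

lemma comm1 (h : a * c = c ^ 3 * a) (i : ℕ) : a * c ^ i = c ^ (3 * i) * a := by
  induction i with
  | zero => simp
  | succ i ih =>
    rw [pow_succ, ← mul_assoc, ih, mul_assoc, h, ← mul_assoc, ← pow_add, mul_add, mul_one]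

lemma comm2 (h : a * c = c ^ 3 * a) (j i : ℕ) : a ^ j * c ^ i = c ^ (3 ^ j * i) * a ^ j := by
  induction j generalizing i with
  | zero => simp
  | succ j ih =>
    rw [pow_succ, mul_assoc, comm1 h, ← mul_assoc, ih, mul_assoc, ← pow_succ, pow_succ 3,
      mul_assoc (3 ^ j)]

lemma nf (h : a * c = c ^ 3 * a) (h7 : c ^ 7 = 1) (h6 : a ^ 6 = 1) (g : G)
    (hg : g ∈ Subgroup.closure ({c, a} : Set G)) : ∃ i j : ℕ, g = c ^ i * a ^ j := by
  induction hg using Subgroup.closure_induction with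
  | mem x hx =>
    rcases hx with rfl | rfl
    · exact ⟨1, 0, by simp⟩
    · exact ⟨0, 1, by simp⟩
  | one => exact ⟨0, 0, by simp⟩
  | mul x y _ _ hx hy =>
    obtain ⟨i, j, rfl⟩ := hx
    obtain ⟨k, l, rfl⟩ := hy
    refine ⟨i + 3 ^ j * k, j + l, ?_⟩
    rw [mul_assoc, ← mul_assoc (a ^ j), comm2 h, pow_add, pow_add]
    simp only [mul_assoc]
  | inv x _ hx =>
    obtain ⟨i, j, rfl⟩ := hx
    refine ⟨3 ^ (5 * j) * (6 * i), 5 * j, ?_⟩
    rw [← comm2 h, mul_inv_rev]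
    congr 1
    · rw [inv_eq_iff_mul_eq_one, ← pow_add, show j + 5 * j = 6 * j by ring, pow_mul, h6, one_pow]
    · rw [inv_eq_iff_mul_eq_one, ← pow_add, show i + 6 * i = 7 * i by ring, pow_mul, h7, one_pow]

lemma uniq (h : a * c = c ^ 3 * a) (h7 : orderOf c = 7) (h6 : a ^ 6 = 1) (i j : ℕ)
    (e : c ^ i * a ^ j = 1) : 7 ∣ i ∧ 6 ∣ j := by
  have e1 : a ^ j = (c ^ i)⁻¹ := (inv_eq_of_mul_eq_one_right e).symm
  have e2 := comm2 h j 1
  rw [e1, pow_one, mul_one] at e2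
  have e3 : c ^ (3 ^ j) = c ^ 1 := by
    have hc : (c ^ i)⁻¹ * c = c * (c ^ i)⁻¹ := ((Commute.refl c).pow_left i).inv_left.eq
    rw [hc] at e2
    rw [pow_one]; exact (mul_right_cancel e2).symm
  rw [pow_eq_pow_iff_modEq, h7] at e3
  have h6j : 6 ∣ j := by
    have hj : j = 6 * (j / 6) + j % 6 := (Nat.div_add_mod j 6).symm
    have e4 : 3 ^ j ≡ 3 ^ (j % 6) [MOD 7] := by
      conv_lhs => rw [hj, pow_add, pow_mul]
      have : (3 ^ 6) ^ (j / 6) ≡ 1 ^ (j / 6) [MOD 7] := Nat.ModEq.pow _ (by decide)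
      rw [one_pow] at this
      simpa using this.mul_right (3 ^ (j % 6))
    have e5 := e4.symm.trans e3
    have hlt : j % 6 < 6 := Nat.mod_lt _ (by norm_num)
    apply Nat.dvd_of_mod_eq_zero
    generalize j % 6 = r at *
    interval_cases r <;> first | rfl | (exfalso; revert e5; decide)
  refine ⟨?_, h6j⟩
  obtain ⟨m, rfl⟩ := h6j
  rw [pow_mul, h6, one_pow, mul_one] at e
  rw [← h7]; exact orderOf_dvd_of_pow_eq_one e

end gen

theorem main (G : Type) [Group G] (c a : G) (h7 : orderOf c = 7) (h6 : orderOf a = 6)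
    (hca : a⁻¹ * c * a = c ^ 5) (hgen : Subgroup.closure ({c, a} : Set G) = ⊤) :
    ∃ (K : Type) (_ : Group K), IsSolvable K ∧ ∃ ψ : G →* K, Function.Injective ψ ∧
        ∃ x : K, x * ((ψ a)⁻¹ * x * ψ a)⁻¹ * ((ψ (a ^ 2))⁻¹ * x * ψ (a ^ 2)) = ψ c := by
  have c7 : c ^ 7 = 1 := by rw [← h7]; exact pow_orderOf_eq_one c
  have a6 : a ^ 6 = 1 := by rw [← h6]; exact pow_orderOf_eq_one a
  have hac : a * c = c ^ 3 * a := by
    have e : (a⁻¹ * c * a) ^ 3 = c := by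
      rw [hca, ← pow_mul, show 5 * 3 = 7 * 2 + 1 by norm_num, pow_add, pow_mul, c7]; simp
    have e' : a⁻¹ * c ^ 3 * a = c := by
      rw [← e]; simp only [pow_succ, pow_zero, one_mul]
      have e2 : a⁻¹ * c * a * (a⁻¹ * c * a) * (a⁻¹ * c * a) = c := by
        simpa only [pow_succ, pow_zero, one_mul] using e
      rw [e2, ← e2]
      simp only [e2]
      calc a⁻¹ * (c * c * c) * a = a⁻¹ * c * a * (a⁻¹ * c * a) * (a⁻¹ * c * a) := by group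
        _ = c := e2
    calc a * c = a * (a⁻¹ * c ^ 3 * a) := by rw [e']
      _ = c ^ 3 * a := by group
  have hAC : A * C = C ^ 3 * A := by decide
  have C7 : C ^ 7 = 1 := by decide
  have A6 : A ^ 6 = 1 := by decide
  have oC : orderOf C = 7 := orderOf_eq_prime C7 (by decide)
  let S : Subgroup (G × H) := Subgroup.closure ({(c, C), (a, A)} : Set (G × H))
  have hnf : ∀ g ∈ S, ∃ i j : ℕ, g = (c ^ i * a ^ j, C ^ i * A ^ j) := by
    intro g hg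
    obtain ⟨i, j, e⟩ := nf (c := (c, C)) (a := (a, A)) (Prod.ext hac hAC) (Prod.ext c7 C7)
      (Prod.ext a6 A6) g hg
    exact ⟨i, j, e⟩
  let p1 : S →* G := (MonoidHom.fst G H).comp S.subtype
  let p2 : S →* H := (MonoidHom.snd G H).comp S.subtype
  have i1 : Function.Injective p1 := by
    rw [injective_iff_map_eq_one]
    rintro ⟨g, hg⟩ e
    obtain ⟨i, j, rfl⟩ := hnf g hg
    obtain ⟨⟨m, rfl⟩, ⟨n, rfl⟩⟩ := uniq hac h7 a6 i j e
    ext1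
    simp [pow_mul, c7, a6, C7, A6]
  have i2 : Function.Injective p2 := by
    rw [injective_iff_map_eq_one]
    rintro ⟨g, hg⟩ e
    obtain ⟨i, j, rfl⟩ := hnf g hg
    obtain ⟨⟨m, rfl⟩, ⟨n, rfl⟩⟩ := uniq hAC oC A6 i j e
    ext1
    simp [pow_mul, c7, a6, C7, A6]
  have mc : (c, C) ∈ S := Subgroup.subset_closure (by simp)
  have ma : (a, A) ∈ S := Subgroup.subset_closure (by simp)
  have s1 : Function.Surjective p1 := by
    rw [← MonoidHom.range_eq_top, eq_top_iff, ← hgen, Subgroup.closure_le]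
    rintro x (rfl | rfl)
    · exact ⟨⟨_, mc⟩, rfl⟩
    · exact ⟨⟨_, ma⟩, rfl⟩
  let e : S ≃* G := MulEquiv.ofBijective p1 ⟨i1, s1⟩
  have ec : e.symm c = ⟨_, mc⟩ := by rw [MulEquiv.symm_apply_eq]; rfl
  have ea : e.symm a = ⟨_, ma⟩ := by rw [MulEquiv.symm_apply_eq]; rfl
  refine ⟨H, inferInstance, solv, p2.comp e.symm.toMonoidHom, i2.comp e.symm.injective, X, ?_⟩
  have r1 : (p2.comp e.symm.toMonoidHom) c = C := by
    show p2 (e.symm c) = C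
    rw [ec]; rfl
  have r2 : (p2.comp e.symm.toMonoidHom) a = A := by
    show p2 (e.symm a) = A
    rw [ea]; rfl
  rw [map_pow, r1, r2]
  decide

end H106Uni
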